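import Pool.Agent.K7.H52.SP.Few

/-!
Polynomials in the derivative; the Lindelöf hypothesis.
-/

open Complex Metric Set Filter Topology Polynomial

namespace Pool.Agent.K7.H52.SP

open H370

/-- `P(D)` applied to the zeta function -/
noncomputable def DD (P : Polynomial ℂ) (s : ℂ) : ℂ :=
  P.sum fun j a => a * iteratedDeriv j riemannZeta s

lemma zeta_iter_an (n : ℕ) {s : ℂ} (hs : s ≠ 1) : AnalyticAt ℂ (iteratedDeriv n riemannZeta) s := by
  induction n with
  | zero => rw [iteratedDeriv_zero]; exact zeta_an hs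
  | succ n ih => rw [iteratedDeriv_succ]; exact ih.deriv

lemma DD_add (P Q : Polynomial ℂ) (s : ℂ) : DD (P + Q) s = DD P s + DD Q s := by
  unfold DD
  exact Polynomial.sum_add_index P Q _ (by simp) (by intro n a b; ring)

lemma DD_monomial (n : ℕ) (a s : ℂ) : DD (monomial n a) s = a * iteratedDeriv n riemannZeta s := by
  unfold DD
  rw [Polynomial.sum_monomial_index]
  simp

lemma DD_an (P : Polynomial ℂ) {s : ℂ} (hs : s ≠ 1) : AnalyticAt ℂ (DD P) s := by
  induction P using Polynomial.induction_on' with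
  | add p q hp hq =>
    have : DD (p + q) = fun s => DD p s + DD q s := by funext s; exact DD_add p q s
    rw [this]
    exact hp.add hq
  | monomial n a =>
    have : DD (monomial n a) = fun s => a * iteratedDeriv n riemannZeta s := by
      funext s; exact DD_monomial n a s
    rw [this]
    exact analyticAt_const.mul (zeta_iter_an n hs)

lemma DD_C_mul (a : ℂ) (P : Polynomial ℂ) (s : ℂ) : DD (C a * P) s = a * DD P s := by
  induction P using Polynomial.induction_on' with
  | add p q hp hq => rw [mul_add, DD_add, hp, hq, DD_add, mul_add]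
  | monomial n b => rw [C_mul_monomial, DD_monomial, DD_monomial]; ring

lemma DD_X_mul (P : Polynomial ℂ) {s : ℂ} (hs : s ≠ 1) : DD (X * P) s = deriv (DD P) s := by
  induction P using Polynomial.induction_on' with
  | add p q hp hq =>
    have : DD (p + q) = fun s => DD p s + DD q s := by funext s; exact DD_add p q s
    rw [mul_add, DD_add, hp, hq, this]
    exact (deriv_fun_add (DD_an p hs).differentiableAt (DD_an q hs).differentiableAt).symm
  | monomial n b =>
    have : DD (monomial n b) = fun s => b * iteratedDeriv n riemannZeta s := by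
      funext s; exact DD_monomial n b s
    rw [this, X_mul_monomial, DD_monomial, deriv_const_mul _ (zeta_iter_an n hs).differentiableAt,
      iteratedDeriv_succ]

lemma DD_prod (l : List ℂ) : ∀ s : ℂ, s ≠ 1 → DD ((l.map fun a => X - C a).prod) s = op l s := by
  induction l with
  | nil =>
    intro s _
    simp only [List.map_nil, List.prod_nil, op]
    have : (1 : Polynomial ℂ) = monomial 0 1 := by simp
    rw [this, DD_monomial]
    simp
  | cons a l ih =>
    intro s hs
    rw [List.map_cons, List.prod_cons, sub_mul, sub_eq_add_neg, ← neg_mul, ← C_neg, DD_add,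
      DD_X_mul _ hs, DD_C_mul, ih s hs]
    have hev : DD ((l.map fun a => X - C a).prod) =ᶠ[𝓝 s] op l := by
      filter_upwards [isOpen_compl_singleton.mem_nhds hs] with z hz
      exact ih z hz
    rw [hev.deriv_eq]
    simp only [op]
    ring

lemma DD_op {P : Polynomial ℂ} (hP : P ≠ 0) : ∃ (l : List ℂ) (c : ℂ), c ≠ 0 ∧
    ∀ s : ℂ, s ≠ 1 → DD P s = c * op l s := by
  refine ⟨P.roots.toList, P.leadingCoeff, leadingCoeff_ne_zero.2 hP, ?_⟩
  intro s hs
  have h1 : P = C P.leadingCoeff * ((P.roots.toList.map fun a => X - C a).prod) := by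
    have h := (IsAlgClosed.splits P).eq_prod_roots
    rw [← Multiset.prod_coe, ← Multiset.map_coe, Multiset.coe_toList]
    exact h
  conv_lhs => rw [h1]
  rw [DD_C_mul, DD_prod _ s hs]

lemma DD_mult {P : Polynomial ℂ} {l : List ℂ} {c : ℂ} (hc : c ≠ 0)
    (h : ∀ s : ℂ, s ≠ 1 → DD P s = c * op l s) {s : ℂ} (hs : s ≠ 1) :
    mult (DD P) s = mult (op l) s := by
  unfold mult analyticOrderNatAt
  have hev : DD P =ᶠ[𝓝 s] (fun _ => c) * op l := by
    filter_upwards [isOpen_compl_singleton.mem_nhds hs] with z hz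
    exact h z hz
  rw [analyticOrderAt_congr hev]
  have h1 : AnalyticAt ℂ (fun _ : ℂ => c) s := analyticAt_const
  rw [analyticOrderAt_mul h1 (op_an l hs), h1.analyticOrderAt_eq_zero.2 hc, zero_add]

/-- the Lindelöf hypothesis -/
def LH : Prop := ∀ ε : ℝ, 0 < ε → ∃ C : ℝ, ∀ t : ℝ, ‖riemannZeta (1 / 2 + t * I)‖ ≤ C * (1 + |t|) ^ ε

lemma zeta_abs (t : ℝ) : ‖riemannZeta (1 / 2 + t * I)‖ = ‖riemannZeta (1 / 2 + (|t| : ℝ) * I)‖ := by
  rcases abs_cases t with ⟨h, _⟩ | ⟨h, _⟩
  · rw [h]
  · rw [h, ← RCLike.norm_conj, ← riemannZeta_conj]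
    congr 2
    simp
    exact Complex.conj_ofNat 2

lemma small_of_LH (H : LH) : SmallZ (1 / 2) := by
  intro σ hσ hσ1 ε hε
  obtain ⟨B, hB, hgr'⟩ := growth 3
  obtain ⟨W, hW, hltl⟩ := ltl (a := 1 / 2) (b := 2) (α := ε / 2) (β := ε / 2) (B := B)
    (ε := ε / 2) (by norm_num) hB (by positivity)
  obtain ⟨T₁, hT₁, hgr⟩ := hgr' W
  obtain ⟨C, hC⟩ := H (min (ε / 4) 1) (lt_min (by positivity) one_pos)
  obtain ⟨M, hM0, hM⟩ := H448R2.GC.X1.zeta_bdd
  obtain ⟨T₂, hT₂, hab⟩ := absorb (max (|C| * 4 ^ (1 : ℝ)) M) (show 0 < ε / 4 by positivity)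
  refine small_of_large hε (T₀ := T₁ + T₂ + 2 * W + 2) ?_
  intro T hT
  have hT3 : 3 ≤ T := by linarith
  have hTpos : 0 < T := by linarith
  have hL0 : 0 < Real.log T := Real.log_pos (by linarith)
  have hab' := hab T (by linarith)
  have h3 := hltl (Real.log T) hL0.le riemannZeta T
    (fun w _ _ hw => (zeta_an (ne_one_of_im' (by
      have := abs_le.1 hw
      linarith))).differentiableAt)
    (fun w hw1 _ hw => hgr T (by linarith) w (by linarith) hw)
    (fun w hw1 hw => by
      obtain ⟨w1, w2, w3⟩ := window hT3 (by linarith) hw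
      have h4 := hC w.im
      have hwe : ((1 / 2 : ℂ) + (w.im : ℂ) * I) = w := by
        apply Complex.ext <;> simp [hw1]
      rw [hwe, abs_of_pos (by linarith)] at h4
      have h5 : (1 + w.im) ^ (min (ε / 4) 1) ≤ 4 ^ (1 : ℝ) * Real.exp (ε / 4 * Real.log T) := by
        rw [exp_mul_log hTpos]
        have hm0 : 0 < min (ε / 4) 1 := lt_min (by positivity) one_pos
        calc (1 + w.im) ^ (min (ε / 4) 1) ≤ (4 * T) ^ (min (ε / 4) 1) :=
              Real.rpow_le_rpow (by linarith) (by linarith) hm0.le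
          _ = 4 ^ (min (ε / 4) 1) * T ^ (min (ε / 4) 1) := Real.mul_rpow (by norm_num) hTpos.le
          _ ≤ 4 ^ (1 : ℝ) * T ^ (ε / 4) := by
              gcongr
              · norm_num
              · exact min_le_right _ _
              · linarith
              · exact min_le_left _ _
      have h7 : 0 ≤ (1 + w.im) ^ (min (ε / 4) 1) := Real.rpow_nonneg (by linarith) _
      calc ‖riemannZeta w‖ ≤ C * (1 + w.im) ^ (min (ε / 4) 1) := h4
        _ ≤ |C| * (1 + w.im) ^ (min (ε / 4) 1) := by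
            gcongr
            exact le_abs_self C
        _ ≤ |C| * (4 ^ (1 : ℝ) * Real.exp (ε / 4 * Real.log T)) := by gcongr
        _ = (|C| * 4 ^ (1 : ℝ)) * Real.exp (ε / 4 * Real.log T) := by ring
        _ ≤ Real.exp (ε / 4 * Real.log T) * Real.exp (ε / 4 * Real.log T) := by
            gcongr
            exact (le_max_left _ _).trans hab'
        _ = _ := by rw [← Real.exp_add]; congr 1; ring)
    (fun w hw1 _ => by
      refine (hM w (by linarith)).trans (((le_max_right _ _).trans hab').trans ?_)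
      apply Real.exp_le_exp.2; nlinarith)
    (σ + T * I) (by simp; linarith) (by simp; linarith) (by simp)
  refine h3.trans (le_of_eq ?_)
  rw [sub_self, zero_mul, add_zero, add_halves, exp_mul_log hTpos]

/-- the bound on the critical line -/
lemma line_of_small {θ : ℝ} (hθ : 1 / 2 ≤ θ) (hθ1 : θ < 1) (H : SmallZ θ) {ε : ℝ} (hε : 0 < ε) :
    ∃ C : ℝ, ∀ t : ℝ, ‖riemannZeta (1 / 2 + t * I)‖ ≤ C * (1 + |t|) ^ ((θ - 1 / 2) / 2 + ε) := by
  set κ : ℝ := (θ - 1 / 2) / 2 + ε with hκ
  have hκ0 : 0 < κ := by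
    have : 0 ≤ (θ - 1 / 2) / 2 := by linarith
    linarith
  set d : ℝ := min (ε / 2) ((1 - θ) / 2) with hd
  have hd0 : 0 < d := lt_min (by positivity) (by linarith)
  have hd1 : d ≤ ε / 2 := min_le_left _ _
  have hd2 : d ≤ (1 - θ) / 2 := min_le_right _ _
  set ϑ : ℝ := θ + d with hϑ
  have hϑ1 : ϑ < 1 := by linarith
  set e : ℝ := ε / 4 with he
  have he0 : 0 < e := by positivity
  obtain ⟨B, hB, hgr'⟩ := growth 3
  obtain ⟨W, hW, hltl⟩ := ltl (a := 1 - ϑ) (b := ϑ) (α := ϑ - 1 / 2 + e) (β := e) (B := B)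
    (ε := e) (by linarith) hB he0
  obtain ⟨T₁, hT₁, hgr⟩ := hgr' W
  obtain ⟨T₂, hT₂, hs1⟩ := small_strip hθ hθ1 H (ϑ := ϑ) (ε := e) (by linarith) he0 W hW.le
  obtain ⟨T₃, hT₃, hs2⟩ := small_left hθ hθ1 H (ϑ := ϑ) (ε := e) (by linarith) he0 W hW.le
  have hbig : ∀ T : ℝ, T₁ + T₂ + T₃ + W + 2 ≤ T → ‖riemannZeta (((1 / 2 : ℝ) : ℂ) + T * I)‖ ≤ T ^ κ := by
    intro T hT
    have hTpos : 0 < T := by linarith
    have hL0 : 0 < Real.log T := Real.log_pos (by linarith)
    have h3 := hltl (Real.log T) hL0.le riemannZeta T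
      (fun w _ _ hw => (zeta_an (ne_one_of_im' (by
        have := abs_le.1 hw
        linarith))).differentiableAt)
      (fun w hw1 _ hw => hgr T (by linarith) w (by linarith) hw)
      (fun w hw1 hw => by
        refine (hs2 T (by linarith) w (by linarith) hw1.le hw).trans (le_of_eq ?_)
        rw [hw1]
        congr 1
        ring)
      (fun w hw1 hw => hs1 T (by linarith) w hw1.ge hw)
      (((1 / 2 : ℝ) : ℂ) + T * I) (by simp; linarith) (by simp; linarith) (by simp)
    refine h3.trans ?_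
    rw [← exp_mul_log hTpos]
    refine Real.exp_le_exp.2 (mul_le_mul_of_nonneg_right ?_ hL0.le)
    have hre : ((((1 / 2 : ℝ) : ℂ) + T * I)).re = 1 / 2 := by simp
    rw [hre]
    have hq : (1 / 2 - (1 - ϑ)) / (ϑ - (1 - ϑ)) = 1 / 2 := by
      have : ϑ - (1 - ϑ) ≠ 0 := by
        have : 0 < ϑ - (1 - ϑ) := by linarith
        exact this.ne'
      field_simp
      ring
    rw [hq]
    linarith
  obtain ⟨C, hC⟩ := small_of_large hκ0 hbig
  -- all real t
  have hcont : ContinuousOn (fun t : ℝ => riemannZeta (1 / 2 + t * I)) (Icc 0 1) := by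
    intro t ht
    apply ContinuousAt.continuousWithinAt
    have h1 : ContinuousAt riemannZeta (1 / 2 + t * I) := by
      refine (zeta_an ?_).continuousAt
      intro h
      have := congrArg Complex.re h
      norm_num at this
    exact ContinuousAt.comp (f := fun t : ℝ => ((1 / 2 : ℂ) + t * I)) h1 (by fun_prop)
  obtain ⟨M, hM⟩ := isCompact_Icc.exists_bound_of_continuousOn hcont
  refine ⟨max |C| M, fun t => ?_⟩
  rw [zeta_abs]
  set u := |t| with hu
  have hu0 : 0 ≤ u := abs_nonneg t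
  have h1 : 1 ≤ (1 + u) ^ κ := Real.one_le_rpow (by linarith) hκ0.le
  have hmax : 0 ≤ max |C| M := (abs_nonneg C).trans (le_max_left _ _)
  rcases le_total u 1 with h | h
  · calc ‖riemannZeta (1 / 2 + (u : ℝ) * I)‖ ≤ M := hM u ⟨hu0, h⟩
      _ ≤ max |C| M * 1 := by rw [mul_one]; exact le_max_right _ _
      _ ≤ _ := by gcongr
  · have h2 := hC u h
    rw [show (((1 / 2 : ℝ) : ℂ)) = 1 / 2 by push_cast; ring] at h2
    calc ‖riemannZeta (1 / 2 + (u : ℝ) * I)‖ ≤ C * u ^ κ := h2
      _ ≤ |C| * (1 + u) ^ κ := by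
          have h3 : u ^ κ ≤ (1 + u) ^ κ := Real.rpow_le_rpow hu0 (by linarith) hκ0.le
          have h4 := le_abs_self C
          have h5 : 0 ≤ u ^ κ := Real.rpow_nonneg hu0 _
          have h6 := abs_nonneg C
          calc C * u ^ κ ≤ |C| * u ^ κ := by gcongr
            _ ≤ _ := by gcongr
      _ ≤ _ := by
          gcongr
          exact le_max_left _ _

theorem LH_iff : LH ↔ SmallZ (1 / 2) := by
  refine ⟨small_of_LH, fun H ε hε => ?_⟩
  obtain ⟨C, hC⟩ := line_of_small le_rfl (by norm_num) H hε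
  refine ⟨C, fun t => ?_⟩
  have := hC t
  rwa [show ((1 : ℝ) / 2 - 1 / 2) / 2 + ε = ε by ring] at this

end Pool.Agent.K7.H52.SP
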