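import Pool.Agent.K7.H52.SP.Main

/-!
Small values of zeta imply few zeros of `op l`, on both sides.
-/

open Complex Metric Set Filter Topology

namespace Pool.Agent.K7.H52.SP

open H345 H345.Chi H370 H370.Loc

lemma mult_zero {f : ℂ → ℂ} {s : ℂ} (h : AnalyticAt ℂ f s) (h0 : f s ≠ 0) : mult f s = 0 := by
  unfold mult analyticOrderNatAt
  rw [h.analyticOrderAt_eq_zero.2 h0]
  rfl

/-- at most `ε log T` zeros `s` of `op l` with `Re s ≥ θ + δ` near height `T` -/
def FewR (l : List ℂ) (θ : ℝ) : Prop := ∀ δ ε : ℝ, 0 < δ → 0 < ε → ∃ T₀ : ℝ, ∀ T : ℝ, T₀ ≤ T →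
  ∀ S : Finset ℂ, (∀ s ∈ S, θ + δ ≤ s.re ∧ |s.im - T| ≤ 1) →
    ∑ s ∈ S, (mult (op l) s : ℝ) ≤ ε * Real.log T

/-- at most `ε log T` zeros `s` of `op l` with `Re s ≤ 1 - θ - δ` near height `T` -/
def FewL (l : List ℂ) (θ : ℝ) : Prop := ∀ δ ε : ℝ, 0 < δ → 0 < ε → ∃ T₀ : ℝ, ∀ T : ℝ, T₀ ≤ T →
  ∀ S : Finset ℂ, (∀ s ∈ S, s.re ≤ 1 - θ - δ ∧ |s.im - T| ≤ 1) →
    ∑ s ∈ S, (mult (op l) s : ℝ) ≤ ε * Real.log T

theorem fewR_of_small (l : List ℂ) {θ : ℝ} (hθ : 1 / 2 ≤ θ) (hθ1 : θ < 1) (H : SmallZ θ) :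
    FewR l θ := by
  classical
  intro δ₀ ε hδ₀ hε
  set δ : ℝ := min δ₀ 1 with hδdef
  have hδ : 0 < δ := lt_min hδ₀ one_pos
  have hδ1 : δ ≤ 1 := min_le_right _ _
  have hδ2 : δ ≤ δ₀ := min_le_left _ _
  obtain ⟨X, hX2, hXne, hXlow⟩ := op_far l
  set Xc : ℝ := X + 1 with hXc
  obtain ⟨a, ha, halow⟩ := hXlow Xc (by linarith)
  set R : ℝ := Xc - θ - δ / 4 with hR
  set r : ℝ := Xc - θ - δ / 2 with hr
  have hr0 : 0 < r := by linarith
  have hrR : r < R := by linarith
  have hlogpos : 0 < Real.log (R / r) := Real.log_pos (by rw [lt_div_iff₀ hr0]; linarith)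
  set N : ℝ := (⌊2 * 1 / (δ / 2)⌋₊ : ℝ) + 1 with hN
  have hN0 : 0 < N := by positivity
  set η : ℝ := ε * Real.log (R / r) / (2 * N) with hη
  have hη0 : 0 < η := by positivity
  obtain ⟨T₁, hT₁, hop⟩ := small_op l hθ hθ1 H (ϑ := θ + δ / 4) (ε := η) (by linarith) hη0
    (1 + R) (by linarith)
  obtain ⟨T₂, hT₂, hab⟩ := absorb (1 / a) hη0
  refine ⟨T₁ + T₂ + R + 4, ?_⟩
  intro T hT S hS
  have hL0 : 0 < Real.log T := Real.log_pos (by linarith)
  set L := Real.log T with hL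
  have hcov := cover (f := op l) (T := T) (W := 1) (h := δ / 2) (b := 2 * η * L / Real.log (R / r))
    (by positivity) zero_le_one S (fun s hs => (hS s hs).2) (by
      intro t ht S' hS' hS'2
      have htW := abs_le.1 ht
      set c : ℂ := ⟨Xc, t⟩ with hc
      -- discard the points far to the right
      set S'' : Finset ℂ := S'.filter (fun s => s.re < X) with hS''
      have hsum : ∑ s ∈ S', (mult (op l) s : ℝ) = ∑ s ∈ S'', (mult (op l) s : ℝ) := by
        rw [hS'', Finset.sum_filter]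
        refine Finset.sum_congr rfl fun s hs => ?_
        by_cases h : s.re < X
        · rw [if_pos h]
        · rw [if_neg h]
          push Not at h
          have him := abs_le.1 (hS s (hS' hs)).2
          rw [mult_zero (op_an l (ne_one_of_im' (by linarith))) (hXne s h)]
          simp
      rw [hsum]
      have hwin : ∀ z ∈ closedBall c R, θ + δ / 4 ≤ z.re ∧ |z.im - T| ≤ 1 + R ∧ z ≠ 1 := by
        intro z hz
        obtain ⟨h1, h2, h3, h4⟩ := ball_coord hz
        simp only [hc] at h1 h2 h3 h4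
        refine ⟨by linarith, abs_le.2 ⟨by linarith, by linarith⟩, ne_one_of_im' (by linarith)⟩
      refine jn (R := R) (r := r) (η := η) (L := L) (c := c) hr0 hrR (by positivity)
        (fun z hz => op_an l (hwin z hz).2.2)
        (fun z hz => hop T (by linarith) z (hwin z hz).1 (hwin z hz).2.1) ?_ S'' ?_
      · have h1 := halow c rfl
        have h2 : 1 / a ≤ Real.exp (η * L) := hab T (by linarith)
        rw [Real.exp_neg]
        refine le_trans ?_ h1
        rw [div_le_iff₀ ha] at h2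
        rw [inv_le_comm₀ (Real.exp_pos _) ha]
        rw [inv_eq_one_div, div_le_iff₀ ha]
        exact h2
      · intro s hs
        rw [hS'', Finset.mem_filter] at hs
        obtain ⟨hs1, hs2⟩ := hs
        have h1 := (hS s (hS' hs1)).1
        have h2 := hS'2 s hs1
        rw [mem_closedBall, dist_eq_norm]
        refine (Complex.norm_le_abs_re_add_abs_im _).trans ?_
        have e1 : (s - c).re = s.re - Xc := by simp [hc]
        have e2 : (s - c).im = s.im - t := by simp [hc]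
        rw [e1, e2]
        have h3 : |s.re - Xc| ≤ Xc - θ - δ := by
          rw [abs_le]
          constructor <;> linarith
        linarith)
  refine hcov.trans (le_of_eq ?_)
  have e : ((⌊2 * 1 / (δ / 2)⌋₊ : ℝ) + 1) = N := rfl
  rw [e, hη]
  field_simp

theorem fewL_of_small (l : List ℂ) {θ : ℝ} (hθ : 1 / 2 ≤ θ) (hθ1 : θ < 1) (H : SmallZ θ) :
    FewL l θ := by
  classical
  intro δ₀ ε hδ₀ hε
  set δ : ℝ := min δ₀ 1 with hδdef
  have hδ : 0 < δ := lt_min hδ₀ one_pos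
  have hδ1 : δ ≤ 1 := min_le_right _ _
  have hδ2 : δ ≤ δ₀ := min_le_left _ _
  obtain ⟨Tl, hTl, hleft⟩ := op_left l (1 / 2) (by norm_num)
  set R : ℝ := 2 - θ - δ / 4 with hR
  set r : ℝ := 2 - θ - δ / 2 with hr
  have hr0 : 0 < r := by linarith
  have hrR : r < R := by linarith
  have hlogpos : 0 < Real.log (R / r) := Real.log_pos (by rw [lt_div_iff₀ hr0]; linarith)
  set N : ℝ := (⌊2 * 1 / (δ / 2)⌋₊ : ℝ) + 1 with hN
  have hN0 : 0 < N := by positivity
  set η : ℝ := ε * Real.log (R / r) / (2 * N) with hη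
  have hη0 : 0 < η := by positivity
  obtain ⟨T₁, hT₁, htw⟩ := small_tw l hθ hθ1 H (ϑ := θ + δ / 4) (ε := η) (by linarith) hη0
    (1 + R) (by linarith)
  obtain ⟨T₂, hT₂, hlow⟩ := left_size' l 1 hη0
  refine ⟨T₁ + T₂ + Tl + R + 4, ?_⟩
  intro T hT S hS
  have hL0 : 0 < Real.log T := Real.log_pos (by linarith)
  set L := Real.log T with hL
  have hcov := cover (f := op l) (T := T) (W := 1) (h := δ / 2) (b := 2 * η * L / Real.log (R / r))
    (by positivity) zero_le_one S (fun s hs => (hS s hs).2) (by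
      intro t ht S' hS' hS'2
      have htW := abs_le.1 ht
      set c : ℂ := ⟨-1, t⟩ with hc
      -- discard the points far to the left
      set S'' : Finset ℂ := S'.filter (fun s => -(1 / 2) < s.re) with hS''
      have hsum : ∑ s ∈ S', (mult (op l) s : ℝ) = ∑ s ∈ S'', (mult (op l) s : ℝ) := by
        rw [hS'', Finset.sum_filter]
        refine Finset.sum_congr rfl fun s hs => ?_
        by_cases h : -(1 / 2) < s.re
        · rw [if_pos h]
        · rw [if_neg h]
          push Not at h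
          have him := abs_le.1 (hS s (hS' hs)).2
          rw [mult_zero (op_an l (ne_one_of_im' (by linarith))) (hleft s h (by linarith)).1]
          simp
      rw [hsum]
      have hwin : ∀ z ∈ closedBall c R, -(5 / 2) ≤ z.re ∧ z.re ≤ 1 - (θ + δ / 4) ∧
          |z.im - T| ≤ 1 + R ∧ z ≠ 1 := by
        intro z hz
        obtain ⟨h1, h2, h3, h4⟩ := ball_coord hz
        simp only [hc] at h1 h2 h3 h4
        refine ⟨by linarith, by linarith, abs_le.2 ⟨by linarith, by linarith⟩,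
          ne_one_of_im' (by linarith)⟩
      have hS3 : ∀ s ∈ S'', s ∈ closedBall c r := by
        intro s hs
        rw [hS'', Finset.mem_filter] at hs
        obtain ⟨hs1, hs2⟩ := hs
        have h1 := (hS s (hS' hs1)).1
        have h2 := hS'2 s hs1
        rw [mem_closedBall, dist_eq_norm]
        refine (Complex.norm_le_abs_re_add_abs_im _).trans ?_
        have e1 : (s - c).re = s.re + 1 := by simp [hc]
        have e2 : (s - c).im = s.im - t := by simp [hc]
        rw [e1, e2]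
        have h3 : |s.re + 1| ≤ 2 - θ - δ := by
          rw [abs_le]
          constructor <;> linarith
        linarith
      have hsum2 : ∑ s ∈ S'', (mult (op l) s : ℝ) = ∑ s ∈ S'', (mult (tw l L) s : ℝ) := by
        refine Finset.sum_congr rfl fun s hs => ?_
        rw [tw_mult l L (hwin s (closedBall_subset_closedBall hrR.le (hS3 s hs))).2.2.2]
      rw [hsum2]
      exact jn (R := R) (r := r) (η := η) (L := L) (c := c) hr0 hrR (by positivity)
        (fun z hz => tw_an l L (hwin z hz).2.2.2)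
        (fun z hz => htw T (by linarith) z (hwin z hz).1 (hwin z hz).2.1 (hwin z hz).2.2.1)
        (hlow T (by linarith) c rfl ht) S'' hS3)
  refine hcov.trans (le_of_eq ?_)
  have e : ((⌊2 * 1 / (δ / 2)⌋₊ : ℝ) + 1) = N := rfl
  rw [e, hη]
  field_simp

/-- from windows of length two to longer windows -/
lemma widen {f : ℂ → ℂ} {Q : ℂ → Prop} (H : ∀ ε : ℝ, 0 < ε → ∃ T₀ : ℝ, ∀ T : ℝ, T₀ ≤ T →
    ∀ S : Finset ℂ, (∀ s ∈ S, Q s ∧ |s.im - T| ≤ 1) → ∑ s ∈ S, (mult f s : ℝ) ≤ ε * Real.log T)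
    {η W : ℝ} (hη : 0 < η) (hW : 0 ≤ W) : ∃ T₀ : ℝ, ∀ T : ℝ, T₀ ≤ T →
    ∀ S : Finset ℂ, (∀ s ∈ S, Q s ∧ |s.im - T| ≤ W) → ∑ s ∈ S, (mult f s : ℝ) ≤ η * Real.log T := by
  set N : ℝ := (⌊2 * W / 1⌋₊ : ℝ) + 1 with hN
  have hN0 : 0 < N := by positivity
  obtain ⟨T₁, h⟩ := H (η / (2 * N)) (by positivity)
  refine ⟨2 * |T₁| + 2 * W + 3, ?_⟩
  intro T hT S hS
  have hT₁ := abs_nonneg T₁
  have hT₁' := le_abs_self T₁
  have hcov := cover (f := f) (T := T) (W := W) (h := 1) (b := η / (2 * N) * (2 * Real.log T))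
    one_pos hW S (fun s hs => (hS s hs).2) (by
      intro t ht S' hS' hS'2
      have htW := abs_le.1 ht
      refine (h t (by linarith) S' (fun s hs => ⟨(hS s (hS' hs)).1, hS'2 s hs⟩)).trans ?_
      gcongr
      have h1 : Real.log t ≤ Real.log (T ^ 2) := by
        apply Real.log_le_log (by linarith)
        nlinarith
      rw [Real.log_pow] at h1
      exact_mod_cast h1)
  refine hcov.trans (le_of_eq ?_)
  have e : ((⌊2 * W / 1⌋₊ : ℝ) + 1) = N := rfl
  rw [e]
  field_simp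

/-- compactness: bounds for large `t` suffice -/
lemma small_of_large {σ ε : ℝ} (hε : 0 < ε) {T₀ : ℝ}
    (h : ∀ T : ℝ, T₀ ≤ T → ‖riemannZeta (σ + T * I)‖ ≤ T ^ ε) :
    ∃ C : ℝ, ∀ t : ℝ, 1 ≤ t → ‖riemannZeta (σ + t * I)‖ ≤ C * t ^ ε := by
  have hcont : ContinuousOn (fun t : ℝ => riemannZeta (σ + t * I)) (Icc 1 (max T₀ 1)) := by
    intro t ht
    apply ContinuousAt.continuousWithinAt
    have h1 : ContinuousAt riemannZeta (σ + t * I) :=
      (zeta_an (ne_one_of_im' (by simp; linarith [ht.1]))).continuousAt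
    exact ContinuousAt.comp (f := fun t : ℝ => ((σ : ℂ) + t * I)) h1 (by fun_prop)
  obtain ⟨M, hM⟩ := isCompact_Icc.exists_bound_of_continuousOn hcont
  refine ⟨max M 1, ?_⟩
  intro t ht
  have ht1 : 1 ≤ t ^ ε := Real.one_le_rpow ht hε.le
  by_cases hc : t ≤ max T₀ 1
  · have h1 := hM t ⟨ht, hc⟩
    calc ‖riemannZeta (σ + t * I)‖ ≤ M := h1
      _ ≤ max M 1 * 1 := by rw [mul_one]; exact le_max_left _ _
      _ ≤ _ := by
          have : 0 ≤ max M 1 := zero_le_one.trans (le_max_right _ _)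
          gcongr
  · push Not at hc
    have h1 := h t ((le_max_left _ _).trans hc.le)
    have h2 := le_max_right M 1
    nlinarith

theorem small_of_fewR (l : List ℂ) {θ : ℝ} (hθ : 1 / 2 ≤ θ) (H : FewR l θ) : SmallZ θ := by
  intro σ hσ hσ1 ε hε
  obtain ⟨δ, η, W, T₁, a1, a2, a3, a4, hlaw⟩ := law_right l (θ := σ) (κ := ε) (by linarith) hσ1 hε
  obtain ⟨T₂, hfew⟩ := widen (f := op l) (Q := fun s => θ + (σ - θ + δ) ≤ s.re)
    (fun ε' hε' => H (σ - θ + δ) ε' (by linarith) hε') a2 a3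
  refine small_of_large hε (T₀ := max T₁ T₂) ?_
  intro T hT
  by_contra hcon
  push Not at hcon
  obtain ⟨S, hS1, hS2⟩ := hlaw T ((le_max_left _ _).trans hT) (σ + T * I) (by simp) (by simp)
    hcon.le
  have := hfew T ((le_max_right _ _).trans hT) S (fun s hs => ⟨by
    have := (hS1 s hs).1
    linarith, (hS1 s hs).2⟩)
  linarith

theorem small_of_fewL (l : List ℂ) {θ : ℝ} (hθ : 1 / 2 ≤ θ) (H : FewL l θ) : SmallZ θ := by
  intro σ hσ hσ1 ε hε
  obtain ⟨δ, η, W, T₁, a1, a2, a3, a4, hlaw⟩ := law_left l (θ := σ) (κ := ε) (by linarith) hσ1 hε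
  obtain ⟨T₂, hfew⟩ := widen (f := op l) (Q := fun s => s.re ≤ 1 - θ - (σ - θ + δ))
    (fun ε' hε' => H (σ - θ + δ) ε' (by linarith) hε') a2 a3
  refine small_of_large hε (T₀ := max T₁ T₂) ?_
  intro T hT
  by_contra hcon
  push Not at hcon
  obtain ⟨S, hS1, hS2⟩ := hlaw T ((le_max_left _ _).trans hT) (σ + T * I) (by simp) (by simp)
    hcon.le
  have := hfew T ((le_max_right _ _).trans hT) S (fun s hs => ⟨by
    have := (hS1 s hs).1
    linarith, (hS1 s hs).2⟩)
  linarith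

theorem small_all {θ : ℝ} (hθ : 1 / 2 ≤ θ) (hθ1 : θ < 1) (H : SmallZ θ) {σ ε : ℝ} (hσ : θ < σ)
    (hε : 0 < ε) : ∃ C : ℝ, ∀ t : ℝ, 1 ≤ t → ‖riemannZeta (σ + t * I)‖ ≤ C * t ^ ε := by
  obtain ⟨T₁, hT₁, h⟩ := small_strip hθ hθ1 H (ϑ := σ) (ε := ε) hσ hε 0 le_rfl
  refine small_of_large hε (T₀ := T₁) ?_
  intro T hT
  have h1 := h T hT (σ + T * I) (by simp) (by simp)
  rwa [exp_mul_log (by linarith)] at h1

end Pool.Agent.K7.H52.SP
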