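import Pool.Agent.K7.H52.SP.Law

/-!
The laws for large values, and the converse.
-/

open Complex Metric Set Filter Topology

namespace Pool.Agent.K7.H52.SP

open H345 H345.Chi H370 H370.Loc

/-- from a line to the right of `Re s = θ` to this line -/
theorem to_line {θ κ : ℝ} (h1 : 1 / 2 ≤ θ) (h2 : θ < 1) (hκ : 0 < κ) :
    ∃ ϑ ε W T₀ : ℝ, θ < ϑ ∧ ϑ < 1 ∧ 0 < ε ∧ 0 ≤ W ∧ 3 ≤ T₀ ∧ ∀ T : ℝ, T₀ ≤ T →
      (∀ s : ℂ, s.re = ϑ → |s.im - T| ≤ W → ‖riemannZeta s‖ ≤ Real.exp (ε * Real.log T)) →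
      ∀ s : ℂ, s.re = θ → s.im = T → ‖riemannZeta s‖ < T ^ κ := by
  set d : ℝ := min (min (κ / 24) ((1 - θ) / 2)) (1 / 4) with hd
  have hd0 : 0 < d := lt_min (lt_min (by positivity) (by linarith)) (by norm_num)
  have hd1 : d ≤ κ / 24 := (min_le_left _ _).trans (min_le_left _ _)
  have hd2 : d ≤ (1 - θ) / 2 := (min_le_left _ _).trans (min_le_right _ _)
  have hd3 : d ≤ 1 / 4 := min_le_right _ _
  set ε : ℝ := κ / 12 with hε
  have hε0 : 0 < ε := by positivity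
  obtain ⟨B, hB, hgr'⟩ := growth 3
  obtain ⟨W, hW, hltl⟩ := ltl (a := -d) (b := θ + d) (α := 1 / 2 + d + ε) (β := ε) (B := B)
    (ε := ε) (by linarith) hB hε0
  obtain ⟨T₁, hT₁, hgr⟩ := hgr' W
  obtain ⟨A, hA1, hA⟩ := DH31.zeta_bounds (a := 1 + d) (by linarith)
  obtain ⟨T₂, hT₂, hab⟩ := absorb A (show 0 < ε / 2 by positivity)
  obtain ⟨T₃, hT₃, hfe⟩ := fe_window W (show 0 < ε / 2 by positivity)
  refine ⟨θ + d, ε, W, T₁ + T₂ + T₃ + W + 2, by linarith, by linarith, hε0, hW.le, by linarith, ?_⟩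
  intro T hT hline s hs1 hs2
  have hT3 : 3 ≤ T := by linarith
  have hTpos : 0 < T := by linarith
  have hL0 : 0 < Real.log T := Real.log_pos (by linarith)
  have h3 := hltl (Real.log T) hL0.le riemannZeta T
    (fun w _ _ hw => (zeta_an (ne_one_of_im' (by
      have := abs_le.1 hw
      linarith))).differentiableAt)
    (fun w hw1 _ hw => hgr T (by linarith) w (by linarith) hw)
    (fun w hw1 hw => by
      set z : ℂ := ⟨1 + d, w.im⟩ with hz
      have h4 := (hfe T (by linarith) z w (by show 1 / 2 ≤ 1 + d; linarith)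
        (by show 1 + d ≤ 4; linarith) hw (by rw [hw1]; show -d = 1 - (1 + d); ring) rfl).1
      have h5 := (hA z le_rfl).1
      have h6 : z.re = 1 + d := rfl
      rw [h6] at h4
      calc ‖riemannZeta w‖ ≤ Real.exp ((1 + d - 1 / 2 + ε / 2) * Real.log T) * ‖riemannZeta z‖ := h4
        _ ≤ Real.exp ((1 + d - 1 / 2 + ε / 2) * Real.log T) * Real.exp (ε / 2 * Real.log T) := by
            gcongr
            exact h5.trans (hab T (by linarith))
        _ = _ := by rw [← Real.exp_add]; congr 1; ring)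
    (fun w hw1 hw => hline w hw1 hw) s (by linarith) (by linarith) hs2
  refine lt_of_le_of_lt h3 ?_
  rw [← exp_mul_log hTpos]
  refine Real.exp_lt_exp.2 (mul_lt_mul_of_pos_right ?_ hL0)
  rw [hs1]
  have hden : 0 < θ + d - -d := by linarith
  have h4 : (θ - -d) / (θ + d - -d) = 1 - d / (θ + d - -d) := by
    field_simp
    ring
  have h5 : d / (θ + d - -d) ≤ 2 * d := by
    rw [div_le_iff₀ hden]
    nlinarith
  have h6 : 0 ≤ d / (θ + d - -d) := by positivity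
  rw [h4]
  set q := d / (θ + d - -d)
  have h7 : (1 / 2 + d) * q ≤ 1 * (2 * d) := by
    apply mul_le_mul (by linarith) h5 h6 (by norm_num)
  nlinarith

/-- large values force zeros of `op l` to the right -/
theorem law_right (l : List ℂ) {θ κ : ℝ} (h1 : 1 / 2 ≤ θ) (h2 : θ < 1) (hκ : 0 < κ) :
    ∃ δ η W T₀ : ℝ, 0 < δ ∧ 0 < η ∧ 0 ≤ W ∧ 3 ≤ T₀ ∧ ∀ T : ℝ, T₀ ≤ T →
      ∀ s : ℂ, s.re = θ → s.im = T → T ^ κ ≤ ‖riemannZeta s‖ →
        ∃ S : Finset ℂ, (∀ z ∈ S, θ + δ ≤ z.re ∧ |z.im - T| ≤ W) ∧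
          η * Real.log T < ∑ z ∈ S, (mult (op l) z : ℝ) := by
  obtain ⟨ϑ, ε, W₀, T₁, a1, a2, a3, a4, a5, hl⟩ := to_line h1 h2 hκ
  obtain ⟨η, W, T₂, b1, b2, b3, hr⟩ := right_small l (ϑ := ϑ) (δ := min ((ϑ - θ) / 2) (1 / 4))
    (ε := ε) (W₀ := W₀) (by linarith) a2.le (lt_min (by linarith) (by norm_num))
    (min_le_right _ _) a3 a4
  refine ⟨(ϑ - θ) / 2, η, W, max T₁ T₂, by linarith, b1, b2, a5.trans (le_max_left _ _), ?_⟩
  intro T hT s hs1 hs2 hbig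
  by_contra hcon
  push Not at hcon
  have h3 := hr T ((le_max_right _ _).trans hT) (fun S hS => hcon S (fun z hz => by
    obtain ⟨c1, c2⟩ := hS z hz
    have := min_le_left ((ϑ - θ) / 2) (1 / 4 : ℝ)
    exact ⟨by linarith, c2⟩))
  have h4 := hl T ((le_max_left _ _).trans hT) (fun z hz1 hz2 => h3 z hz1.ge (by linarith) hz2) s
    hs1 hs2
  linarith

/-- large values force zeros of `op l` to the left -/
theorem law_left (l : List ℂ) {θ κ : ℝ} (h1 : 1 / 2 ≤ θ) (h2 : θ < 1) (hκ : 0 < κ) :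
    ∃ δ η W T₀ : ℝ, 0 < δ ∧ 0 < η ∧ 0 ≤ W ∧ 3 ≤ T₀ ∧ ∀ T : ℝ, T₀ ≤ T →
      ∀ s : ℂ, s.re = θ → s.im = T → T ^ κ ≤ ‖riemannZeta s‖ →
        ∃ S : Finset ℂ, (∀ z ∈ S, z.re ≤ 1 - θ - δ ∧ |z.im - T| ≤ W) ∧
          η * Real.log T < ∑ z ∈ S, (mult (op l) z : ℝ) := by
  obtain ⟨ϑ, ε, W₀, T₁, a1, a2, a3, a4, a5, hl⟩ := to_line h1 h2 hκ
  obtain ⟨η, W, T₂, b1, b2, b3, hr⟩ := left_small l (ϑ := ϑ) (δ := min ((ϑ - θ) / 2) (1 / 8))
    (ε := ε) (W₀ := W₀) (by linarith) a2 (lt_min (by linarith) (by norm_num))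
    (min_le_right _ _) a3 a4
  refine ⟨(ϑ - θ) / 2, η, W, max T₁ T₂, by linarith, b1, b2, a5.trans (le_max_left _ _), ?_⟩
  intro T hT s hs1 hs2 hbig
  by_contra hcon
  push Not at hcon
  have h3 := hr T ((le_max_right _ _).trans hT) (fun S hS => hcon S (fun z hz => by
    obtain ⟨c1, c2⟩ := hS z hz
    have := min_le_left ((ϑ - θ) / 2) (1 / 8 : ℝ)
    exact ⟨by linarith, c2⟩))
  have h4 := hl T ((le_max_left _ _).trans hT) (fun z hz1 hz2 => h3 z hz1 hz2) s hs1 hs2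
  linarith

/-- `ζ(σ + it) = O(t^ε)` for every `σ` in `(θ, 1)` -/
def SmallZ (θ : ℝ) : Prop := ∀ σ : ℝ, θ < σ → σ < 1 → ∀ ε : ℝ, 0 < ε → ∃ C : ℝ, ∀ t : ℝ, 1 ≤ t →
  ‖riemannZeta (σ + t * I)‖ ≤ C * t ^ ε

lemma small_strip {θ : ℝ} (hθ : 1 / 2 ≤ θ) (hθ1 : θ < 1) (H : SmallZ θ) {ϑ ε : ℝ} (hϑ : θ < ϑ)
    (hε : 0 < ε) (W₀ : ℝ) (hW₀ : 0 ≤ W₀) : ∃ T₀ : ℝ, 3 ≤ T₀ ∧ ∀ T : ℝ, T₀ ≤ T →
      ∀ s : ℂ, ϑ ≤ s.re → |s.im - T| ≤ W₀ → ‖riemannZeta s‖ ≤ Real.exp (ε * Real.log T) := by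
  set p : ℝ := min ϑ ((θ + 1) / 2) with hp
  have hp1 : θ < p := lt_min hϑ (by linarith)
  have hp3 : p ≤ (θ + 1) / 2 := min_le_right _ _
  have hp2 : p < 1 := by linarith
  obtain ⟨B, hB, hgr'⟩ := growth 3
  obtain ⟨Wl, hWl, hltl⟩ := ltl (a := p) (b := 2) (α := ε / 2) (β := ε / 2) (B := B)
    (ε := ε / 2) (by linarith) hB (by positivity)
  obtain ⟨T₁, hT₁, hgr⟩ := hgr' (W₀ + Wl)
  obtain ⟨C, hC⟩ := H p hp1 hp2 (min (ε / 4) 1) (lt_min (by positivity) one_pos)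
  obtain ⟨M, hM0, hM⟩ := H448R2.GC.X1.zeta_bdd
  obtain ⟨T₂, hT₂, hab⟩ := absorb (max (|C| * 2 ^ (1 : ℝ)) M) (show 0 < ε / 4 by positivity)
  refine ⟨T₁ + T₂ + 2 * (W₀ + Wl) + 2, by linarith, ?_⟩
  intro T hT s hs1 hs2
  have hT3 : 3 ≤ T := by linarith
  have hL0 : 0 < Real.log T := Real.log_pos (by linarith)
  have hab' := hab T (by linarith)
  have hquarter : Real.exp (ε / 4 * Real.log T) ≤ Real.exp (ε / 2 * Real.log T) := by
    apply Real.exp_le_exp.2; nlinarith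
  rcases le_total 2 s.re with h2 | h2
  · calc ‖riemannZeta s‖ ≤ M := hM s (by linarith)
      _ ≤ Real.exp (ε / 4 * Real.log T) := (le_max_right _ _).trans hab'
      _ ≤ _ := by apply Real.exp_le_exp.2; nlinarith
  · have hsW := abs_le.1 hs2
    have h3 := hltl (Real.log T) hL0.le riemannZeta s.im
      (fun w _ _ hw => (zeta_an (ne_one_of_im' (by
        have := abs_le.1 hw
        linarith))).differentiableAt)
      (fun w hw1 _ hw => hgr T (by linarith) w (by linarith) (by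
        have := abs_le.1 hw
        rw [abs_le]
        constructor <;> linarith))
      (fun w hw1 hw => by
        have hw' := abs_le.1 hw
        have hwT : |w.im - T| ≤ W₀ + Wl := by
          rw [abs_le]
          constructor <;> linarith
        obtain ⟨w1, w2, w3⟩ := window hT3 (by linarith) hwT
        have h4 := hC w.im w3
        have hwe : ((p : ℂ) + (w.im : ℂ) * I) = w := by
          apply Complex.ext <;> simp [hw1]
        rw [hwe] at h4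
        have h5 := rpow_window (x := min (ε / 4) 1) (X := 1) hT3 w1 w2 (by
          rw [abs_of_pos (lt_min (by positivity) one_pos)]; exact min_le_right _ _)
        have h6 : Real.exp (min (ε / 4) 1 * Real.log T) ≤ Real.exp (ε / 4 * Real.log T) := by
          apply Real.exp_le_exp.2
          have := min_le_left (ε / 4) (1 : ℝ)
          nlinarith
        have h7 : 0 ≤ w.im ^ (min (ε / 4) 1) := Real.rpow_nonneg (by linarith) _
        calc ‖riemannZeta w‖ ≤ C * w.im ^ (min (ε / 4) 1) := h4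
          _ ≤ |C| * w.im ^ (min (ε / 4) 1) := by
              gcongr
              exact le_abs_self C
          _ ≤ |C| * (2 ^ (1 : ℝ) * Real.exp (ε / 4 * Real.log T)) := by
              gcongr
              exact h5.trans (by gcongr)
          _ = (|C| * 2 ^ (1 : ℝ)) * Real.exp (ε / 4 * Real.log T) := by ring
          _ ≤ Real.exp (ε / 4 * Real.log T) * Real.exp (ε / 4 * Real.log T) := by
              gcongr
              exact (le_max_left _ _).trans hab'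
          _ = _ := by rw [← Real.exp_add]; congr 1; ring)
      (fun w hw1 _ => (hM w (by linarith)).trans (((le_max_right _ _).trans hab').trans hquarter))
      s ((min_le_left _ _).trans hs1) h2 rfl
    refine h3.trans (Real.exp_le_exp.2 (mul_le_mul_of_nonneg_right ?_ hL0.le))
    rw [sub_self, zero_mul]
    linarith

lemma small_op (l : List ℂ) {θ : ℝ} (hθ : 1 / 2 ≤ θ) (hθ1 : θ < 1) (H : SmallZ θ) {ϑ ε : ℝ}
    (hϑ : θ < ϑ) (hε : 0 < ε) (W₀ : ℝ) (hW₀ : 0 ≤ W₀) : ∃ T₀ : ℝ, 3 ≤ T₀ ∧ ∀ T : ℝ, T₀ ≤ T →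
      ∀ s : ℂ, ϑ ≤ s.re → |s.im - T| ≤ W₀ → ‖op l s‖ ≤ Real.exp (ε * Real.log T) := by
  set r : ℝ := min ((ϑ - θ) / 2) 1 with hr
  have hr0 : 0 < r := lt_min (by linarith) one_pos
  have hr1 : r ≤ (ϑ - θ) / 2 := min_le_left _ _
  have hr2 : r ≤ 1 := min_le_right _ _
  obtain ⟨C, hC, hc⟩ := op_cauchy l r hr0
  obtain ⟨T₁, hT₁, h⟩ := small_strip hθ hθ1 H (ϑ := ϑ - r) (ε := ε / 2) (by linarith)
    (by positivity) (W₀ + 1) (by linarith)
  obtain ⟨T₂, hT₂, hab⟩ := absorb C (show 0 < ε / 2 by positivity)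
  refine ⟨T₁ + T₂ + W₀ + 2, by linarith, ?_⟩
  intro T hT s hs1 hs2
  have hsW := abs_le.1 hs2
  have hz : ∀ z ∈ closedBall s r, ϑ - r ≤ z.re ∧ |z.im - T| ≤ W₀ + 1 := by
    intro z hz
    obtain ⟨c1, c2, c3, c4⟩ := ball_coord hz
    exact ⟨by linarith, abs_le.2 ⟨by linarith, by linarith⟩⟩
  have h1 := hc s (fun z hz' => ne_one_of_im' (by
    have := abs_le.1 (hz z hz').2
    linarith [this.1])) _ (fun z hz' => h T (by linarith) z (hz z hz').1 (hz z hz').2)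
  calc ‖op l s‖ ≤ C * Real.exp (ε / 2 * Real.log T) := h1
    _ ≤ Real.exp (ε / 2 * Real.log T) * Real.exp (ε / 2 * Real.log T) := by
        gcongr
        exact hab T (by linarith)
    _ = _ := by rw [← Real.exp_add]; congr 1; ring

lemma small_left {θ : ℝ} (hθ : 1 / 2 ≤ θ) (hθ1 : θ < 1) (H : SmallZ θ) {ϑ ε : ℝ} (hϑ : θ < ϑ)
    (hε : 0 < ε) (W₀ : ℝ) (hW₀ : 0 ≤ W₀) : ∃ T₀ : ℝ, 3 ≤ T₀ ∧ ∀ T : ℝ, T₀ ≤ T →
      ∀ s : ℂ, -3 ≤ s.re → s.re ≤ 1 - ϑ → |s.im - T| ≤ W₀ →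
        ‖riemannZeta s‖ ≤ Real.exp ((1 / 2 - s.re + ε) * Real.log T) := by
  obtain ⟨T₁, hT₁, h⟩ := small_strip hθ hθ1 H (ϑ := ϑ) (ε := ε / 2) hϑ (by positivity) W₀ hW₀
  obtain ⟨T₂, hT₂, hfe⟩ := fe_window W₀ (show 0 < ε / 2 by positivity)
  refine ⟨max T₁ T₂, hT₁.trans (le_max_left _ _), ?_⟩
  intro T hT s hs1 hs2 hs3
  set z : ℂ := ⟨1 - s.re, s.im⟩ with hz
  have hzre : z.re = 1 - s.re := rfl
  have h1 := (hfe T ((le_max_right _ _).trans hT) z s (by rw [hzre]; linarith)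
    (by rw [hzre]; linarith) hs3 (by rw [hzre]; ring) rfl).1
  have h2 := h T ((le_max_left _ _).trans hT) z (by rw [hzre]; linarith) hs3
  rw [hzre] at h1
  calc ‖riemannZeta s‖ ≤ Real.exp ((1 - s.re - 1 / 2 + ε / 2) * Real.log T) * ‖riemannZeta z‖ := h1
    _ ≤ Real.exp ((1 - s.re - 1 / 2 + ε / 2) * Real.log T) * Real.exp (ε / 2 * Real.log T) := by
        gcongr
    _ = _ := by rw [← Real.exp_add]; congr 1; ring

lemma small_tw (l : List ℂ) {θ : ℝ} (hθ : 1 / 2 ≤ θ) (hθ1 : θ < 1) (H : SmallZ θ) {ϑ ε : ℝ}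
    (hϑ : θ < ϑ) (hε : 0 < ε) (W₀ : ℝ) (hW₀ : 0 ≤ W₀) : ∃ T₀ : ℝ, 3 ≤ T₀ ∧ ∀ T : ℝ, T₀ ≤ T →
      ∀ s : ℂ, -(5 / 2) ≤ s.re → s.re ≤ 1 - ϑ → |s.im - T| ≤ W₀ →
        ‖tw l (Real.log T) s‖ ≤ Real.exp (ε * Real.log T) := by
  set r : ℝ := min (min ((ϑ - θ) / 2) (1 / 2)) (ε / 3) with hr
  have hr0 : 0 < r := lt_min (lt_min (by linarith) (by norm_num)) (by positivity)
  have hr1 : r ≤ (ϑ - θ) / 2 := (min_le_left _ _).trans (min_le_left _ _)
  have hr2 : r ≤ 1 / 2 := (min_le_left _ _).trans (min_le_right _ _)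
  have hr3 : r ≤ ε / 3 := min_le_right _ _
  obtain ⟨C, hC, hc⟩ := op_cauchy l r hr0
  obtain ⟨T₁, hT₁, h⟩ := small_left hθ hθ1 H (ϑ := ϑ - r) (ε := ε / 3) (by linarith)
    (by positivity) (W₀ + 1) (by linarith)
  obtain ⟨T₂, hT₂, hab⟩ := absorb C (show 0 < ε / 3 by positivity)
  refine ⟨T₁ + T₂ + W₀ + 2, by linarith, ?_⟩
  intro T hT s hs0 hs1 hs2
  have hsW := abs_le.1 hs2
  have hL0 : 0 < Real.log T := Real.log_pos (by linarith)
  have hz : ∀ z ∈ closedBall s r, -3 ≤ z.re ∧ z.re ≤ 1 - (ϑ - r) ∧ |z.im - T| ≤ W₀ + 1 ∧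
      s.re - r ≤ z.re := by
    intro z hz
    obtain ⟨c1, c2, c3, c4⟩ := ball_coord hz
    exact ⟨by linarith, by linarith, abs_le.2 ⟨by linarith, by linarith⟩, c1⟩
  have h1 := hc s (fun z hz' => ne_one_of_im' (by
    have := abs_le.1 (hz z hz').2.2.1
    linarith [this.1])) (Real.exp ((1 / 2 - s.re + r + ε / 3) * Real.log T)) (fun z hz' => by
      refine (h T (by linarith) z (hz z hz').1 (hz z hz').2.1 (hz z hz').2.2.1).trans ?_
      apply Real.exp_le_exp.2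
      have := (hz z hz').2.2.2
      gcongr ?_ * Real.log T
      linarith)
  rw [tw_norm]
  calc ‖op l s‖ * Real.exp (Real.log T * (s.re - 1 / 2))
      ≤ (C * Real.exp ((1 / 2 - s.re + r + ε / 3) * Real.log T)) *
          Real.exp (Real.log T * (s.re - 1 / 2)) := by gcongr
    _ ≤ (Real.exp (ε / 3 * Real.log T) * Real.exp ((1 / 2 - s.re + r + ε / 3) * Real.log T)) *
          Real.exp (Real.log T * (s.re - 1 / 2)) := by
        gcongr
        exact hab T (by linarith)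
    _ = Real.exp ((r + 2 * (ε / 3)) * Real.log T) := by
        rw [← Real.exp_add, ← Real.exp_add]; congr 1; ring
    _ ≤ _ := by
        apply Real.exp_le_exp.2
        gcongr ?_ * Real.log T
        linarith

end Pool.Agent.K7.H52.SP
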