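import Pool.Agent.H31R2.DH.Back

/-!
Few zeros imply small values on a disc of any size; the number of zeros in a disc.
-/

open Complex Metric Set Filter Topology

namespace Pool.Agent.K7.H52.SP

open H370 H370.Loc

lemma mult_comp_affine {f : ℂ → ℂ} {c : ℂ} {R : ℝ} (hR : 0 < R) {w : ℂ}
    (_hf : AnalyticAt ℂ f (c + R * w)) :
    mult (fun x : ℂ => f (c + R * x)) w = mult f (c + R * w) := by
  have hR' : (R : ℂ) ≠ 0 := by exact_mod_cast hR.ne'
  have hg : AnalyticAt ℂ (fun x : ℂ => c + R * x) w := by fun_prop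
  have hg' : deriv (fun x : ℂ => c + R * x) w ≠ 0 := by
    have : HasDerivAt (fun x : ℂ => c + R * x) ((R : ℂ) * 1) w :=
      ((hasDerivAt_id w).const_mul (R : ℂ)).const_add c
    rw [this.deriv]
    simpa using hR'
  have h := analyticOrderAt_comp_of_deriv_ne_zero (f := f) hg hg'
  unfold mult analyticOrderNatAt
  have e : (f ∘ fun x : ℂ => c + R * x) = fun x : ℂ => f (c + R * x) := rfl
  rw [e] at h
  rw [h]

theorem bk {R δ l B ε : ℝ} (hR : 0 < R) (hδ : 0 < δ) (hl : 0 < l) (hl1 : l ≤ R - 3 * δ)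
    (hB : 0 ≤ B) (hε : 0 < ε) :
    ∃ η : ℝ, 0 < η ∧ ∃ L₀ : ℝ, 0 < L₀ ∧ ∀ L : ℝ, L₀ ≤ L → ∀ (f : ℂ → ℂ) (c : ℂ),
      AnalyticOnNhd ℂ f (closedBall c R) → (∀ z ∈ closedBall c R, ‖f z‖ ≤ Real.exp (B * L)) →
      (∀ z ∈ closedBall c l, f z ≠ 0 ∧ ‖f z‖ ≤ Real.exp (η * L)) →
      Real.exp (-(η * L)) ≤ ‖f c‖ →
      (∀ S : Finset ℂ, (∀ z ∈ S, z ∈ closedBall c (R - δ) ∧ f z = 0) →
        ∑ z ∈ S, (mult f z : ℝ) ≤ η * L) →
      ∀ z ∈ closedBall c (R - 2 * δ), ‖f z‖ ≤ Real.exp (ε * L) := by
  set d : ℝ := δ / R with hd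
  set m : ℝ := l / R with hm
  have hd0 : 0 < d := by positivity
  have hm0 : 0 < m := by positivity
  have hm1 : m ≤ 1 - 3 * d := by
    rw [hm, hd, div_le_iff₀ hR]
    field_simp
    linarith
  have hd1 : d ≤ 1 := by linarith
  have hlogd : 0 ≤ Real.log (1 / d) := Real.log_nonneg (by rw [le_div_iff₀ hd0]; linarith)
  have hlogm : 0 ≤ Real.log (2 / m) := Real.log_nonneg (by rw [le_div_iff₀ hm0]; linarith)
  -- choice of K
  set D : ℝ := 4 * (B + Real.log (1 / d) + 2) / d * (2 / d) with hD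
  have hD0 : 0 < D := by positivity
  obtain ⟨K, hK⟩ := exists_pow_lt_of_lt_one (show 0 < ε / 4 / D by positivity)
    (show 1 - d / 2 < 1 by linarith)
  rw [lt_div_iff₀ hD0] at hK
  set G : ℝ := K * (4 / m) ^ K with hG
  have hG0 : 0 ≤ G := by positivity
  set E : ℝ := 1 + Real.log (2 / m) + 2 * (2 + Real.log (2 / m)) * G with hE
  have hE0 : 0 < E := by positivity
  set η : ℝ := min 1 (ε / 4 / E) with hη
  have hη0 : 0 < η := lt_min one_pos (by positivity)
  have hη1 : η ≤ 1 := min_le_left _ _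
  have hη2 : η * E ≤ ε / 4 := by
    have : η ≤ ε / 4 / E := min_le_right _ _
    rwa [le_div_iff₀ hE0] at this
  refine ⟨η, hη0, max 1 (8 * G / ε), by positivity, ?_⟩
  intro L hL f c hf hB1 hB2 hc hz z hz2
  have hL1 : 1 ≤ L := (le_max_left _ _).trans hL
  have hL2 : 8 * G / ε ≤ L := (le_max_right _ _).trans hL
  rw [div_le_iff₀ hε] at hL2
  -- the scaled function
  set g : ℂ → ℂ := fun x => f (c + R * x) with hg
  have hmap : ∀ (x : ℂ) (r : ℝ), x ∈ closedBall (0 : ℂ) r → c + R * x ∈ closedBall c (R * r) := by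
    intro x r hx
    rw [mem_closedBall, dist_eq_norm] at hx ⊢
    rw [sub_zero] at hx
    rw [add_sub_cancel_left, norm_mul, Complex.norm_real, Real.norm_of_nonneg hR.le]
    gcongr
  have hRd : R * (1 - d) = R - δ := by rw [hd]; field_simp
  have hRd2 : R * (1 - 2 * d) = R - 2 * δ := by rw [hd]; field_simp
  have hRm : R * m = l := by rw [hm]; field_simp
  have hgan : AnalyticOnNhd ℂ g (closedBall 0 ((1 - 3 * d) + 3 * d)) := by
    intro x hx
    have h1 := hmap x _ hx
    rw [show (1 - 3 * d) + 3 * d = 1 by ring, mul_one] at h1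
    have h2 := hf _ h1
    have h3 : AnalyticAt ℂ (fun x : ℂ => c + R * x) x := by fun_prop
    exact AnalyticAt.comp (g := f) (f := fun x : ℂ => c + R * x) h2 h3
  have hexp1 : 1 ≤ Real.exp (η * L) := Real.one_le_exp (by positivity)
  have key := DH31.backlund_abs (f := g) (c := 0) (ϱ := 1 - 3 * d) (δ := d) (l := m) (n := η * L)
    (M := Real.exp (B * L)) (A := Real.exp (η * L)) (a := Real.exp (η * L)) hm0 (by linarith) hm1
    (by linarith) hd0 (Real.one_le_exp (by positivity)) hexp1 hexp1 (by positivity) hgan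
    (by
      intro x hx
      have h1 := hmap x _ hx
      rw [show (1 - 3 * d) + 3 * d = 1 by ring, mul_one] at h1
      exact hB1 _ h1)
    (by
      intro x hx
      have h1 := hmap x _ hx
      refine (hB2 _ (closedBall_subset_closedBall ?_ h1)).2
      rw [← hRm]
      have : m / 2 ≤ m := by linarith
      gcongr)
    (by
      rw [one_div, ← Real.exp_neg]
      simpa [hg] using hc)
    (by
      intro x hx hx0
      by_contra hcon
      push Not at hcon
      rw [sub_zero] at hcon
      have h1 : x ∈ closedBall (0 : ℂ) m := by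
        rw [mem_closedBall, dist_eq_norm, sub_zero]; exact hcon.le
      have h2 := hmap x _ h1
      rw [hRm] at h2
      exact (hB2 _ h2).1 hx0)
    (by
      intro S hS
      classical
      set S' : Finset ℂ := S.image (fun x : ℂ => c + R * x) with hS'
      have hinj : Function.Injective (fun x : ℂ => c + R * x) := by
        intro x y hxy
        have hR' : (R : ℂ) ≠ 0 := by exact_mod_cast hR.ne'
        have h := add_left_cancel hxy
        exact mul_left_cancel₀ hR' h
      have h1 := hz S' (by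
        intro y hy
        rw [hS', Finset.mem_image] at hy
        obtain ⟨x, hx, rfl⟩ := hy
        obtain ⟨h2, h3⟩ := hS x hx
        refine ⟨?_, h3⟩
        have h4 := hmap x _ h2
        rwa [show (1 - 3 * d) + 2 * d = 1 - d by ring, hRd] at h4)
      rw [hS', Finset.sum_image (fun x _ y _ h => hinj h)] at h1
      refine le_trans (le_of_eq ?_) h1
      refine Finset.sum_congr rfl fun x hx => ?_
      have h2 := hmap x _ (hS x hx).1
      have h3 := hf _ (closedBall_subset_closedBall (by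
        rw [show (1 - 3 * d) + 2 * d = 1 - d by ring, hRd]; linarith) h2)
      rw [mult_comp_affine hR h3])
    K (z := (z - c) / R) (by
      rw [mem_closedBall, dist_eq_norm, sub_zero, norm_div, Complex.norm_real,
        Real.norm_of_nonneg hR.le, div_le_iff₀ hR]
      rw [mem_closedBall, dist_eq_norm] at hz2
      nlinarith)
  have hR' : (R : ℂ) ≠ 0 := by exact_mod_cast hR.ne'
  have e1 : g ((z - c) / R) = f z := by
    simp only [hg]
    congr 1
    field_simp
    ring
  rw [e1] at key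
  refine key.trans ?_
  rw [Real.log_exp, Real.log_exp, ← Real.exp_add]
  apply Real.exp_le_exp.2
  have hlast : 4 * (B * L + η * L * Real.log (1 / d) + η * L + 1) / d * (1 - d / 2) ^ K * (2 / d) ≤
      ε / 4 * L := by
    have h1 : B * L + η * L * Real.log (1 / d) + η * L + 1 ≤ (B + Real.log (1 / d) + 2) * L := by
      have : η * L * Real.log (1 / d) ≤ 1 * L * Real.log (1 / d) := by gcongr
      have h2 : η * L ≤ 1 * L := by gcongr
      nlinarith
    have h0 : 0 ≤ 1 - d / 2 := by linarith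
    calc 4 * (B * L + η * L * Real.log (1 / d) + η * L + 1) / d * (1 - d / 2) ^ K * (2 / d)
        ≤ 4 * ((B + Real.log (1 / d) + 2) * L) / d * (1 - d / 2) ^ K * (2 / d) := by gcongr
      _ = ((1 - d / 2) ^ K * D) * L := by rw [hD]; ring
      _ ≤ ε / 4 * L := by gcongr
  have hmid : η * L + η * L * Real.log (2 / m) +
      2 * (η * L + η * L * Real.log (2 / m) + η * L + 1) * (K * (4 / m) ^ K) ≤
      ε / 4 * L + ε / 4 * L := by
    have h1 : η * L + η * L * Real.log (2 / m) +
      2 * (η * L + η * L * Real.log (2 / m) + η * L + 1) * (K * (4 / m) ^ K) =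
        η * E * L + 2 * G := by rw [hE, hG]; ring
    rw [h1]
    have h2 : η * E * L ≤ ε / 4 * L := by gcongr
    linarith
  nlinarith [mul_pos hε (lt_of_lt_of_le one_pos hL1)]

/-- the number of zeros in a disc -/
theorem jn {r R η L : ℝ} (hr : 0 < r) (hrR : r < R) (hηL : 0 ≤ η * L) {f : ℂ → ℂ} {c : ℂ}
    (hf : AnalyticOnNhd ℂ f (closedBall c R))
    (hb : ∀ z ∈ closedBall c R, ‖f z‖ ≤ Real.exp (η * L)) (hc : Real.exp (-(η * L)) ≤ ‖f c‖)
    (S : Finset ℂ) (hS : ∀ z ∈ S, z ∈ closedBall c r) :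
    ∑ z ∈ S, (mult f z : ℝ) ≤ 2 * η * L / Real.log (R / r) := by
  have hc0 : 0 < ‖f c‖ := lt_of_lt_of_le (Real.exp_pos _) hc
  have h := jensen_mult hr hrR (Real.one_le_exp hηL) hf (norm_pos_iff.1 hc0) hb S hS
  refine h.trans ?_
  have hlog : 0 < Real.log (R / r) := Real.log_pos (by rw [lt_div_iff₀ hr]; linarith)
  gcongr
  have h1 : Real.exp (η * L) / ‖f c‖ ≤ Real.exp (2 * η * L) := by
    rw [div_le_iff₀ hc0]
    calc Real.exp (η * L) = Real.exp (2 * η * L) * Real.exp (-(η * L)) := by
          rw [← Real.exp_add]; congr 1; ring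
      _ ≤ Real.exp (2 * η * L) * ‖f c‖ := by gcongr
  calc Real.log (Real.exp (η * L) / ‖f c‖) ≤ Real.log (Real.exp (2 * η * L)) :=
        Real.log_le_log (by positivity) h1
    _ = 2 * η * L := Real.log_exp _

/-- a local form of the three lines theorem -/
theorem ltl {a b α β B ε : ℝ} (hab : a < b) (hB : 0 ≤ B) (hε : 0 < ε) :
    ∃ W : ℝ, 0 < W ∧ ∀ (L : ℝ), 0 ≤ L → ∀ (f : ℂ → ℂ) (T : ℝ),
      (∀ s : ℂ, a ≤ s.re → s.re ≤ b → |s.im - T| ≤ W → DifferentiableAt ℂ f s) →
      (∀ s : ℂ, a ≤ s.re → s.re ≤ b → |s.im - T| ≤ W → ‖f s‖ ≤ Real.exp (B * L)) →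
      (∀ s : ℂ, s.re = a → |s.im - T| ≤ W → ‖f s‖ ≤ Real.exp (α * L)) →
      (∀ s : ℂ, s.re = b → |s.im - T| ≤ W → ‖f s‖ ≤ Real.exp (β * L)) →
      ∀ s : ℂ, a ≤ s.re → s.re ≤ b → s.im = T →
        ‖f s‖ ≤ Real.exp ((α + (β - α) * ((s.re - a) / (b - a)) + ε) * L) := by
  have hba : 0 < b - a := by linarith
  set κ : ℝ := ε / (b - a) ^ 2 with hκ
  have hκ0 : 0 < κ := by positivity
  have hκ1 : κ * (b - a) ^ 2 = ε := by rw [hκ]; field_simp
  set W : ℝ := Real.sqrt ((B + |α| + |β| + 1) / κ) with hW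
  have hW0 : 0 < W := Real.sqrt_pos.2 (by positivity)
  have hW2 : κ * W ^ 2 = B + |α| + |β| + 1 := by
    rw [hW, Real.sq_sqrt (by positivity)]; field_simp
  refine ⟨W, hW0, ?_⟩
  intro L hL f T hd hf ha hb s hs1 hs2 hs3
  have hs : s = (s.re : ℂ) + T * I := by
    apply Complex.ext <;> simp [hs3]
  set q : ℂ → ℂ := fun w => (κ : ℂ) * (w - s) ^ 2 -
    ((α : ℂ) + ((β : ℂ) - α) * ((w - a) / (b - a))) with hq
  have hqre : ∀ w : ℂ, (q w).re = κ * ((w.re - s.re) ^ 2 - (w.im - T) ^ 2) -
      (α + (β - α) * ((w.re - a) / (b - a))) := by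
    intro w
    have e1 : ((w - (a : ℂ)) / ((b : ℂ) - a)) = (((w.re - a) / (b - a) : ℝ) : ℂ) +
        ((w.im / (b - a) : ℝ) : ℂ) * I := by
      have : w - (a : ℂ) = ((w.re - a : ℝ) : ℂ) + ((w.im : ℝ) : ℂ) * I := by
        apply Complex.ext <;> simp
      rw [this]
      push_cast
      ring
    simp only [hq]
    rw [e1]
    have e2 : ((β : ℂ) - α) = ((β - α : ℝ) : ℂ) := by push_cast; ring
    rw [e2]
    set x := (w.re - a) / (b - a)
    set y := w.im / (b - a)
    simp only [pow_two, Complex.sub_re, Complex.mul_re, Complex.add_re, Complex.ofReal_re,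
      Complex.ofReal_im, Complex.add_im, Complex.mul_im, Complex.I_re, Complex.I_im,
      Complex.sub_im, hs3]
    ring
  set g : ℂ → ℂ := fun w => f w * cexp ((L : ℂ) * q w) with hg
  have hgn : ∀ w : ℂ, ‖g w‖ = ‖f w‖ * Real.exp (L * (q w).re) := by
    intro w
    simp only [hg]
    rw [norm_mul, Complex.norm_exp]
    congr 2
    simp
  set U : Set ℂ := Ioo a b ×ℂ Ioo (T - W) (T + W) with hU
  have hclU : closure U = Icc a b ×ℂ Icc (T - W) (T + W) := by
    rw [hU, Complex.closure_reProdIm, closure_Ioo hab.ne, closure_Ioo (by linarith)]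
  have hmem : ∀ w ∈ closure U, a ≤ w.re ∧ w.re ≤ b ∧ |w.im - T| ≤ W := by
    intro w hw
    rw [hclU, Complex.mem_reProdIm] at hw
    obtain ⟨⟨h1, h2⟩, h3, h4⟩ := hw
    exact ⟨h1, h2, abs_le.2 ⟨by linarith, by linarith⟩⟩
  have hbdd : Bornology.IsBounded U := by
    rw [hU]
    exact (Metric.isBounded_Ioo a b).reProdIm (Metric.isBounded_Ioo _ _)
  have hlam : ∀ x : ℝ, a ≤ x → x ≤ b → -(α + (β - α) * ((x - a) / (b - a))) ≤ |α| + |β| := by
    intro x h1 h2
    have h3 : 0 ≤ (x - a) / (b - a) := div_nonneg (by linarith) hba.le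
    have h4 : (x - a) / (b - a) ≤ 1 := by rw [div_le_one hba]; linarith
    set r := (x - a) / (b - a)
    have h5 : -(α + (β - α) * r) = -α * (1 - r) + -β * r := by ring
    rw [h5]
    have h6 : -α * (1 - r) ≤ |α| * 1 := by
      refine (mul_le_mul_of_nonneg_right (neg_le_abs α) (by linarith)).trans ?_
      gcongr
      linarith
    have h7 : -β * r ≤ |β| * 1 := by
      refine (mul_le_mul_of_nonneg_right (neg_le_abs β) (by linarith)).trans ?_
      gcongr
    linarith
  have hsq : ∀ x : ℝ, a ≤ x → x ≤ b → (x - s.re) ^ 2 ≤ (b - a) ^ 2 := by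
    intro x h1 h2
    apply sq_le_sq'
    · linarith
    · linarith
  have hmax : ‖g s‖ ≤ Real.exp (ε * L) := by
    refine Complex.norm_le_of_forall_mem_frontier_norm_le (U := U) hbdd ?_ ?_ ?_
    · apply DifferentiableOn.diffContOnCl
      intro w hw
      obtain ⟨h1, h2, h3⟩ := hmem w hw
      have h4 := hd w h1 h2 h3
      have h5 : DifferentiableAt ℂ q w := by
        simp only [hq]
        fun_prop
      exact (h4.mul ((h5.const_mul (L : ℂ)).cexp)).differentiableWithinAt
    · intro w hw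
      have hw' : w ∈ closure U := frontier_subset_closure hw
      obtain ⟨h1, h2, h3⟩ := hmem w hw'
      rw [hgn]
      have hnot : w ∉ U := by
        have hopen : IsOpen U := by
          rw [hU]; exact isOpen_Ioo.reProdIm isOpen_Ioo
        intro hcon
        rw [frontier, hopen.interior_eq] at hw
        exact hw.2 hcon
      have hcases : w.re = a ∨ w.re = b ∨ |w.im - T| = W := by
        by_contra hcon
        push Not at hcon
        obtain ⟨c1, c2, c3⟩ := hcon
        apply hnot
        rw [hU, Complex.mem_reProdIm]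
        have h4 : |w.im - T| < W := lt_of_le_of_ne h3 c3
        rw [abs_lt] at h4
        exact ⟨⟨lt_of_le_of_ne h1 (Ne.symm c1), lt_of_le_of_ne h2 c2⟩,
          ⟨by linarith [h4.1], by linarith [h4.2]⟩⟩
      rcases hcases with h | h | h
      · have h5 := ha w h h3
        have h6 : (q w).re ≤ ε - α := by
          rw [hqre, h]
          have h7 := hsq a le_rfl hab.le
          have h8 : κ * ((a - s.re) ^ 2 - (w.im - T) ^ 2) ≤ κ * (b - a) ^ 2 := by
            gcongr
            nlinarith [sq_nonneg (w.im - T)]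
          rw [hκ1] at h8
          simp only [sub_self, zero_div, mul_zero, add_zero]
          linarith
        calc ‖f w‖ * Real.exp (L * (q w).re) ≤ Real.exp (α * L) * Real.exp (L * (ε - α)) := by
              gcongr
          _ = Real.exp (ε * L) := by rw [← Real.exp_add]; congr 1; ring
      · have h5 := hb w h h3
        have h6 : (q w).re ≤ ε - β := by
          rw [hqre, h]
          have h7 := hsq b hab.le le_rfl
          have h8 : κ * ((b - s.re) ^ 2 - (w.im - T) ^ 2) ≤ κ * (b - a) ^ 2 := by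
            gcongr
            nlinarith [sq_nonneg (w.im - T)]
          rw [hκ1] at h8
          rw [div_self hba.ne']
          linarith
        calc ‖f w‖ * Real.exp (L * (q w).re) ≤ Real.exp (β * L) * Real.exp (L * (ε - β)) := by
              gcongr
          _ = Real.exp (ε * L) := by rw [← Real.exp_add]; congr 1; ring
      · have h5 := hf w h1 h2 h3
        have h6 : (q w).re ≤ ε - B := by
          rw [hqre]
          have h7 := hsq w.re h1 h2
          have h9 : (w.im - T) ^ 2 = W ^ 2 := by rw [← sq_abs, h]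
          have h8 : κ * ((w.re - s.re) ^ 2 - (w.im - T) ^ 2) ≤ κ * ((b - a) ^ 2 - W ^ 2) := by
            rw [h9]
            gcongr
          rw [mul_sub κ ((b - a) ^ 2), hκ1, hW2] at h8
          have h10 := hlam w.re h1 h2
          linarith
        calc ‖f w‖ * Real.exp (L * (q w).re) ≤ Real.exp (B * L) * Real.exp (L * (ε - B)) := by
              gcongr
          _ = Real.exp (ε * L) := by rw [← Real.exp_add]; congr 1; ring
    · rw [hclU, Complex.mem_reProdIm, hs3]
      exact ⟨⟨hs1, hs2⟩, ⟨by linarith, by linarith⟩⟩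
  rw [hgn, hqre, hs3] at hmax
  simp only [sub_self, ne_eq, OfNat.ofNat_ne_zero, not_false_eq_true, zero_pow, mul_zero,
    zero_sub] at hmax
  set lam := α + (β - α) * ((s.re - a) / (b - a))
  calc ‖f s‖ = (‖f s‖ * Real.exp (L * -lam)) * Real.exp (lam * L) := by
        rw [mul_assoc, ← Real.exp_add, show L * -lam + lam * L = 0 by ring, Real.exp_zero, mul_one]
    _ ≤ Real.exp (ε * L) * Real.exp (lam * L) := by gcongr
    _ = Real.exp ((lam + ε) * L) := by rw [← Real.exp_add]; congr 1; ring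

end Pool.Agent.K7.H52.SP
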