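import Pool.Agent.K7.H52.SP.Bk
import Pool.Agent.H448R2.GC.X2

/-!
Differential operators with constant coefficients applied to the zeta function.
-/

open Complex Metric Set Filter Topology

namespace Pool.Agent.K7.H52.SP

/-- `∏ (D - a)`, `a ∈ l`, applied to the zeta function -/
noncomputable def op : List ℂ → ℂ → ℂ
  | [] => riemannZeta
  | a :: l => fun s => deriv (op l) s - a * op l s

lemma zeta_an {s : ℂ} (hs : s ≠ 1) : AnalyticAt ℂ riemannZeta s := by
  have : DifferentiableOn ℂ riemannZeta ({1}ᶜ : Set ℂ) := fun z hz =>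
      (differentiableAt_riemannZeta hz).differentiableWithinAt
  exact this.analyticAt (isOpen_compl_singleton.mem_nhds hs)

lemma op_an (l : List ℂ) {s : ℂ} (hs : s ≠ 1) : AnalyticAt ℂ (op l) s := by
  induction l with
  | nil => exact zeta_an hs
  | cons a l ih => exact ih.deriv.sub (analyticAt_const.mul ih)

lemma op_cauchy (l : List ℂ) : ∀ r : ℝ, 0 < r → ∃ C : ℝ, 1 ≤ C ∧ ∀ s : ℂ,
    (∀ z ∈ closedBall s r, z ≠ 1) → ∀ M : ℝ, (∀ z ∈ closedBall s r, ‖riemannZeta z‖ ≤ M) →
      ‖op l s‖ ≤ C * M := by
  induction l with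
  | nil =>
    intro r hr
    refine ⟨1, le_rfl, ?_⟩
    intro s _ M hM
    simpa [op] using hM s (mem_closedBall_self hr.le)
  | cons a l ih =>
    intro r hr
    obtain ⟨C, hC, h⟩ := ih (r / 2) (by positivity)
    have hC0 : 0 ≤ C := by linarith
    refine ⟨1 + C * (2 / r) + ‖a‖ * C, ?_, ?_⟩
    · have : 0 ≤ C * (2 / r) := by positivity
      have : 0 ≤ ‖a‖ * C := by positivity
      linarith
    · intro s hs M hM
      have hM0 : 0 ≤ M := (norm_nonneg _).trans (hM s (mem_closedBall_self hr.le))
      have hsub : ∀ z ∈ closedBall s (r / 2), closedBall z (r / 2) ⊆ closedBall s r := by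
        intro z hz
        refine closedBall_subset_closedBall' ?_
        rw [mem_closedBall] at hz
        linarith
      have hz : ∀ z ∈ closedBall s (r / 2), ‖op l z‖ ≤ C * M := fun z hz =>
        h z (fun w hw => hs w (hsub z hz hw)) M (fun w hw => hM w (hsub z hz hw))
      have hd : ‖deriv (op l) s‖ ≤ C * M / (r / 2) := by
        refine Complex.norm_deriv_le_of_forall_mem_sphere_norm_le (by positivity) ?_ ?_
        · apply DifferentiableOn.diffContOnCl
          intro z hz
          have hz' : z ∈ closedBall s (r / 2) := closure_ball_subset_closedBall hz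
          exact (op_an l (hs z (closedBall_subset_closedBall (by linarith)
            hz'))).differentiableAt.differentiableWithinAt
        · intro z hz'
          exact hz z (sphere_subset_closedBall hz')
      have h0 := hz s (mem_closedBall_self (by positivity))
      calc ‖op (a :: l) s‖ ≤ ‖deriv (op l) s‖ + ‖a * op l s‖ := norm_sub_le _ _
        _ ≤ C * M / (r / 2) + ‖a‖ * (C * M) := by
            rw [norm_mul]; gcongr
        _ = (C * (2 / r) + ‖a‖ * C) * M := by field_simp
        _ ≤ _ := by
            gcongr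
            linarith

lemma ne_one_of_re' {z : ℂ} (h : 1 < z.re) : z ≠ 1 := by
  rintro rfl; simp at h

lemma ne_one_of_im' {z : ℂ} (h : 0 < z.im) : z ≠ 1 := by
  rintro rfl; simp at h

lemma op_right (l : List ℂ) : ∃ C : ℝ, 1 ≤ C ∧ ∀ s : ℂ, 2 ≤ s.re → ‖op l s‖ ≤ C := by
  obtain ⟨C, hC, h⟩ := op_cauchy l (1 / 2) (by norm_num)
  obtain ⟨M, hM, h'⟩ := H448R2.GC.X1.zeta_bdd
  refine ⟨C * max M 1, ?_, ?_⟩
  · have := le_max_right M 1
    nlinarith
  · intro s hs
    have hre : ∀ z ∈ closedBall s (1 / 2), 3 / 2 ≤ z.re := by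
      intro z hz
      rw [mem_closedBall, dist_eq_norm] at hz
      have h1 := (abs_le.1 ((Complex.abs_re_le_norm (z - s)).trans hz)).1
      rw [Complex.sub_re] at h1
      linarith
    exact h s (fun z hz => ne_one_of_re' (by linarith [hre z hz])) _
      (fun z hz => (h' z (hre z hz)).trans (le_max_left _ _))

/-- the zeta function is recovered by integration along horizontal segments -/
lemma op_int (l : List ℂ) (X A : ℝ) (hA : 2 ≤ A) (hX : 0 ≤ X) :
    ∃ C : ℝ, 1 ≤ C ∧ ∀ (t x₀ M : ℝ), 1 ≤ t → -X ≤ x₀ → 1 ≤ M →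
      (∀ s : ℂ, s.im = t → x₀ ≤ s.re → s.re ≤ A → ‖op l s‖ ≤ M) →
      ∀ s : ℂ, s.im = t → x₀ ≤ s.re → s.re ≤ A → ‖riemannZeta s‖ ≤ C * M := by
  induction l with
  | nil =>
    refine ⟨1, le_rfl, ?_⟩
    intro t x₀ M ht hx hM h s h1 h2 h3
    simpa [op] using h s h1 h2 h3
  | cons a l ih =>
    obtain ⟨C, hC, h⟩ := ih
    obtain ⟨K, hK, hr⟩ := op_right l
    set E : ℝ := Real.exp (‖a‖ * (X + A)) with hE
    have hE1 : 1 ≤ E := Real.one_le_exp (by positivity)
    have hE0 : 0 < E := by linarith
    set C' : ℝ := E * (E * K + E * (X + A)) with hC'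
    have hC'1 : 1 ≤ C' := by
      have h1 : 1 ≤ E * K := by nlinarith
      have h2 : 0 ≤ E * (X + A) := by positivity
      nlinarith
    refine ⟨C * C', by nlinarith, ?_⟩
    intro t x₀ M ht hx hM hop s h1 h2 h3
    have hgoal : ∀ w : ℂ, w.im = t → x₀ ≤ w.re → w.re ≤ A → ‖op l w‖ ≤ C' * M := by
      intro w hw1 hw2 hw3
      set Q : Set ℂ := {z : ℂ | z.im = t ∧ x₀ ≤ z.re ∧ z.re ≤ A} with hQ
      have hQc : Convex ℝ Q := by
        intro x hx y hy p q hp hq hpq
        obtain ⟨x1, x2, x3⟩ := hx
        obtain ⟨y1, y2, y3⟩ := hy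
        refine ⟨?_, ?_, ?_⟩
        · simp only [Complex.add_im, Complex.real_smul, Complex.mul_im, Complex.ofReal_re,
            Complex.ofReal_im, zero_mul, add_zero, x1, y1]
          rw [← add_mul, hpq, one_mul]
        · simp only [Complex.add_re, Complex.real_smul, Complex.mul_re, Complex.ofReal_re,
            Complex.ofReal_im, zero_mul, sub_zero]
          nlinarith
        · simp only [Complex.add_re, Complex.real_smul, Complex.mul_re, Complex.ofReal_re,
            Complex.ofReal_im, zero_mul, sub_zero]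
          nlinarith
      set G : ℂ → ℂ := fun z => op l z * cexp (-a * (z - t * I)) with hG
      have hnorm : ∀ z ∈ Q, ‖-a * (z - t * I)‖ ≤ ‖a‖ * (X + A) := by
        intro z hz
        obtain ⟨z1, z2, z3⟩ := hz
        rw [norm_mul, norm_neg]
        have : z - t * I = ((z.re : ℝ) : ℂ) := by
          apply Complex.ext <;> simp [z1]
        rw [this, Complex.norm_real, Real.norm_eq_abs]
        gcongr
        rw [abs_le]
        constructor <;> linarith
      have hexp : ∀ z ∈ Q, ‖cexp (-a * (z - t * I))‖ ≤ E := by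
        intro z hz
        rw [Complex.norm_exp]
        exact Real.exp_le_exp.2 ((Complex.re_le_norm _).trans (hnorm z hz))
      have hexp' : ∀ z ∈ Q, E⁻¹ ≤ ‖cexp (-a * (z - t * I))‖ := by
        intro z hz
        rw [Complex.norm_exp, hE, ← Real.exp_neg]
        refine Real.exp_le_exp.2 ?_
        have := (abs_le.1 ((Complex.abs_re_le_norm _).trans (hnorm z hz))).1
        exact this
      have hderiv : ∀ z ∈ Q, HasDerivWithinAt G (op (a :: l) z * cexp (-a * (z - t * I))) Q z := by
        intro z hz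
        obtain ⟨z1, z2, z3⟩ := hz
        have e1 : HasDerivAt (op l) (deriv (op l) z) z :=
          (op_an l (ne_one_of_im' (by linarith))).differentiableAt.hasDerivAt
        have e2 : HasDerivAt (fun y : ℂ => -a * (y - t * I)) (-a * 1) z :=
          ((hasDerivAt_id z).sub_const (t * I)).const_mul (-a)
        have e3 := e1.mul e2.cexp
        have e4 : deriv (op l) z * cexp (-a * (z - t * I)) +
            op l z * (cexp (-a * (z - t * I)) * (-a * 1)) =
            op (a :: l) z * cexp (-a * (z - t * I)) := by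
          simp only [op]
          ring
        rw [← e4]
        exact e3.hasDerivWithinAt
      have hAQ : (⟨A, t⟩ : ℂ) ∈ Q := by
        refine ⟨rfl, ?_, le_rfl⟩
        exact le_trans hw2 hw3
      have hwQ : w ∈ Q := ⟨hw1, hw2, hw3⟩
      have hmv := hQc.norm_image_sub_le_of_norm_hasDerivWithin_le (C := M * E) hderiv
        (fun z hz => by
          rw [norm_mul]
          have := hop z hz.1 hz.2.1 hz.2.2
          have := hexp z hz
          gcongr) hAQ hwQ
      have hdist : ‖w - (⟨A, t⟩ : ℂ)‖ ≤ X + A := by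
        have : w - (⟨A, t⟩ : ℂ) = ((w.re - A : ℝ) : ℂ) := by
          apply Complex.ext <;> simp [hw1]
        rw [this, Complex.norm_real, Real.norm_eq_abs, abs_le]
        constructor <;> linarith
      have hGA : ‖G ⟨A, t⟩‖ ≤ E * K := by
        simp only [hG]
        rw [norm_mul]
        have h1 := hr (⟨A, t⟩ : ℂ) (by simpa using hA)
        have h2 := hexp _ hAQ
        calc _ ≤ K * E := by gcongr
          _ = _ := by ring
      have hGw : ‖G w‖ ≤ (E * K + E * (X + A)) * M := by
        have h4 : ‖G w‖ ≤ ‖G ⟨A, t⟩‖ + ‖G w - G ⟨A, t⟩‖ := by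
          have := norm_add_le (G ⟨A, t⟩) (G w - G ⟨A, t⟩)
          rwa [add_sub_cancel] at this
        have h5 : M * E * ‖w - (⟨A, t⟩ : ℂ)‖ ≤ M * E * (X + A) := by gcongr
        have h6 : E * K ≤ E * K * M := by
          have : 0 ≤ E * K := by positivity
          nlinarith
        calc ‖G w‖ ≤ E * K + M * E * (X + A) := by linarith
          _ ≤ E * K * M + M * E * (X + A) := by linarith
          _ = _ := by ring
      have h7 : ‖op l w‖ * E⁻¹ ≤ ‖G w‖ := by
        simp only [hG]
        rw [norm_mul]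
        have := hexp' w hwQ
        gcongr
      have h8 : ‖op l w‖ ≤ E * ‖G w‖ := by
        rw [← div_eq_mul_inv, div_le_iff₀ hE0] at h7
        linarith
      calc ‖op l w‖ ≤ E * ((E * K + E * (X + A)) * M) := h8.trans (by gcongr)
        _ = C' * M := by rw [hC']; ring
    have h9 := h t x₀ (C' * M) ht hx (by nlinarith) hgoal s h1 h2 h3
    calc ‖riemannZeta s‖ ≤ C * (C' * M) := h9
      _ = _ := by ring

end Pool.Agent.K7.H52.SP
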