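import Pool.Agent.K7.H52.SP.Dz

/-!
Differential operators applied to the zeta function, far to the right.
-/

open Complex Metric Set Filter Topology

namespace Pool.Agent.K7.H52.SP

/-- the coefficients of `op l` -/
noncomputable def cf : List ℂ → ℕ → ℂ
  | [] => 1
  | a :: l => (-LSeries.logMul (cf l)) - a • cf l

lemma cf_apply (a : ℂ) (l : List ℂ) (n : ℕ) : cf (a :: l) n = (-log n - a) * cf l n := by
  simp only [cf, LSeries.logMul, Pi.sub_apply, Pi.neg_apply, Pi.smul_apply, smul_eq_mul]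
  ring

lemma cf_abs (l : List ℂ) : LSeries.abscissaOfAbsConv (cf l) ≤ 1 := by
  induction l with
  | nil =>
    simp only [cf]
    exact le_of_eq LSeries.abscissaOfAbsConv_one
  | cons a l ih =>
    refine LSeries.abscissaOfAbsConv_le_of_forall_lt_LSeriesSummable (x := 1) fun y hy => ?_
    have h : LSeries.abscissaOfAbsConv (cf l) < ((y : ℂ).re : EReal) := by
      refine lt_of_le_of_lt ih ?_
      simp only [Complex.ofReal_re]
      exact_mod_cast hy
    have h1 := LSeriesSummable_logMul_of_lt_re h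
    have h2 := LSeriesSummable_of_abscissaOfAbsConv_lt_re h
    exact (h1.neg).sub (h2.smul a)

lemma cf_summable (l : List ℂ) {s : ℂ} (hs : 1 < s.re) : LSeriesSummable (cf l) s :=
  LSeriesSummable_of_abscissaOfAbsConv_lt_re (lt_of_le_of_lt (cf_abs l) (by exact_mod_cast hs))

lemma op_eq (l : List ℂ) : ∀ s : ℂ, 1 < s.re → op l s = LSeries (cf l) s := by
  induction l with
  | nil =>
    intro s hs
    simp only [op, cf]
    exact (LSeries_one_eq_riemannZeta hs).symm
  | cons a l ih =>
    intro s hs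
    have habs : LSeries.abscissaOfAbsConv (cf l) < (s.re : EReal) :=
      lt_of_le_of_lt (cf_abs l) (by exact_mod_cast hs)
    have h1 : deriv (op l) s = -LSeries (LSeries.logMul (cf l)) s := by
      have hev : op l =ᶠ[𝓝 s] LSeries (cf l) := by
        have hopen : IsOpen {z : ℂ | 1 < z.re} := isOpen_lt continuous_const continuous_re
        filter_upwards [hopen.mem_nhds hs] with z hz
        exact ih z hz
      rw [hev.deriv_eq, LSeries_deriv habs]
    have h2 : LSeriesSummable (-LSeries.logMul (cf l)) s :=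
      (LSeriesSummable_logMul_of_lt_re habs).neg
    have h3 : LSeriesSummable (a • cf l) s := (cf_summable l hs).smul a
    simp only [op, cf]
    rw [LSeries_sub h2 h3, LSeries_neg, LSeries_smul, h1, ih s hs]

lemma cf_zero_finite (l : List ℂ) : {n : ℕ | 1 ≤ n ∧ cf l n = 0}.Finite := by
  induction l with
  | nil =>
    convert Set.finite_empty
    ext n
    simp [cf]
  | cons a l ih =>
    refine (ih.union (s := {n : ℕ | 1 ≤ n ∧ cf l n = 0})
      (t := {n : ℕ | 1 ≤ n ∧ -log (n : ℂ) - a = 0}) ?_).subset ?_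
    · refine Set.Subsingleton.finite ?_
      intro n hn m hm
      obtain ⟨h1, h2⟩ := hn
      obtain ⟨h3, h4⟩ := hm
      have h5 : log (n : ℂ) = log (m : ℂ) := by linear_combination h4 - h2
      rw [← Complex.natCast_log, ← Complex.natCast_log] at h5
      have h6 : Real.log n = Real.log m := by exact_mod_cast h5
      have h7 := Real.log_injOn_pos (show (n : ℝ) ∈ Set.Ioi 0 from by
        rw [Set.mem_Ioi]; exact_mod_cast h1) (show (m : ℝ) ∈ Set.Ioi 0 from by
        rw [Set.mem_Ioi]; exact_mod_cast h3) h6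
      exact_mod_cast h7
    · rintro n ⟨h1, h2⟩
      rw [cf_apply] at h2
      rcases mul_eq_zero.1 h2 with h | h
      · exact Or.inr ⟨h1, h⟩
      · exact Or.inl ⟨h1, h⟩

lemma exists_cf (l : List ℂ) : ∃ n : ℕ, 1 ≤ n ∧ cf l n ≠ 0 := by
  by_contra hcon
  push Not at hcon
  have h := cf_zero_finite l
  have : {n : ℕ | 1 ≤ n} ⊆ {n : ℕ | 1 ≤ n ∧ cf l n = 0} := fun n hn => ⟨hn, hcon n hn⟩
  have h2 := h.subset this
  exact (Set.infinite_of_forall_exists_gt (fun a => ⟨a + 1, by simp, by omega⟩)) h2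

lemma op_far (l : List ℂ) : ∃ X : ℝ, 2 ≤ X ∧ (∀ s : ℂ, X ≤ s.re → op l s ≠ 0) ∧
    ∀ Y : ℝ, X ≤ Y → ∃ a : ℝ, 0 < a ∧ ∀ s : ℂ, s.re = Y → a ≤ ‖op l s‖ := by
  classical
  set m := Nat.find (exists_cf l) with hm
  obtain ⟨hm1, hm2⟩ := Nat.find_spec (exists_cf l)
  rw [← hm] at hm1 hm2
  have hmin : ∀ n : ℕ, 1 ≤ n → n < m → cf l n = 0 := by
    intro n hn1 hn2
    have := Nat.find_min (exists_cf l) hn2
    push Not at this
    exact this hn1
  have hsum2 : Summable fun n => ‖LSeries.term (cf l) 2 n‖ :=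
    (cf_summable l (s := 2) (by norm_num)).norm
  set K := ∑' n, ‖LSeries.term (cf l) 2 n‖ with hK
  have hK0 : 0 ≤ K := tsum_nonneg fun n => norm_nonneg _
  set q : ℝ := m / (m + 1) with hq
  have hm0 : (0 : ℝ) < m := by exact_mod_cast hm1
  have hq0 : 0 < q := by positivity
  have hq1 : q < 1 := by rw [hq, div_lt_one (by positivity)]; linarith
  have hcm : 0 < ‖cf l m‖ := norm_pos_iff.2 hm2
  have htend := tendsto_rpow_atTop_of_base_lt_one q (by linarith) hq1
  have hev := htend.eventually_lt_const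
    (show (0 : ℝ) < ‖cf l m‖ / (2 * (K + 1) * (m + 1) ^ 2) by positivity)
  obtain ⟨X0, hX0⟩ := Filter.eventually_atTop.1 hev
  -- the main estimate
  have main : ∀ s : ℂ, max X0 2 ≤ s.re → ‖cf l m‖ / 2 * (m : ℝ) ^ (-s.re) ≤ ‖op l s‖ := by
    intro s hs
    have hs2 : 2 ≤ s.re := (le_max_right _ _).trans hs
    have hsX : X0 ≤ s.re := (le_max_left _ _).trans hs
    have hsum := cf_summable l (s := s) (by linarith)
    rw [op_eq l s (by linarith)]
    unfold LSeries
    rw [hsum.tsum_eq_add_tsum_ite m]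
    have hterm : ‖LSeries.term (cf l) s m‖ = ‖cf l m‖ * (m : ℝ) ^ (-s.re) := by
      rw [LSeries.norm_term_eq, if_neg (by omega), Real.rpow_neg hm0.le, div_eq_mul_inv]
    have hrest : ‖∑' n, ite (n = m) 0 (LSeries.term (cf l) s n)‖ ≤
        K * ((m : ℝ) + 1) ^ (2 - s.re) := by
      refine tsum_of_norm_bounded (g := fun n => ‖LSeries.term (cf l) 2 n‖ *
        ((m : ℝ) + 1) ^ (2 - s.re)) ?_ ?_
      · exact hsum2.hasSum.mul_right _
      · intro n
        by_cases hn : n = m
        · rw [if_pos hn, norm_zero]; positivity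
        · rw [if_neg hn]
          rcases Nat.eq_zero_or_pos n with rfl | hn0
          · simp
          · rcases lt_or_gt_of_ne hn with h | h
            · have : LSeries.term (cf l) s n = 0 := by
                rw [LSeries.term_def, if_neg (by omega), hmin n hn0 h, zero_div]
              rw [this, norm_zero]; positivity
            · rw [LSeries.norm_term_eq, LSeries.norm_term_eq, if_neg (by omega),
                if_neg (by omega)]
              have hnpos : (0 : ℝ) < n := by exact_mod_cast hn0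
              have e : (n : ℝ) ^ s.re = (n : ℝ) ^ (2 : ℂ).re * (n : ℝ) ^ (s.re - 2) := by
                rw [← Real.rpow_add hnpos]
                congr 1
                simp
              rw [e, ← div_div, div_eq_mul_inv _ ((n : ℝ) ^ (s.re - 2)), ← Real.rpow_neg hnpos.le]
              have e2 : -(s.re - 2) = 2 - s.re := by ring
              rw [e2]
              have h5 : (n : ℝ) ^ (2 - s.re) ≤ ((m : ℝ) + 1) ^ (2 - s.re) := by
                apply Real.rpow_le_rpow_of_nonpos (by positivity)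
                · exact_mod_cast h
                · linarith
              gcongr
    have hbound : K * ((m : ℝ) + 1) ^ (2 - s.re) ≤ ‖cf l m‖ / 2 * (m : ℝ) ^ (-s.re) := by
      have h1 := hX0 s.re hsX
      have hm1' : (0 : ℝ) < (m : ℝ) + 1 := by positivity
      have h2 : q ^ s.re = (m : ℝ) ^ s.re * ((m : ℝ) + 1) ^ (-s.re) := by
        rw [hq, Real.div_rpow hm0.le hm1'.le, Real.rpow_neg hm1'.le, div_eq_mul_inv]
      rw [h2, lt_div_iff₀ (by positivity)] at h1
      have h3 : ((m : ℝ) + 1) ^ (2 - s.re) = ((m : ℝ) + 1) ^ 2 * ((m : ℝ) + 1) ^ (-s.re) := by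
        rw [sub_eq_add_neg, Real.rpow_add hm1', Real.rpow_two]
      have h4 : (m : ℝ) ^ s.re * (m : ℝ) ^ (-s.re) = 1 := by
        rw [← Real.rpow_add hm0, add_neg_cancel, Real.rpow_zero]
      have h5 : 0 < (m : ℝ) ^ (-s.re) := Real.rpow_pos_of_pos hm0 _
      rw [h3]
      have h6 : K * (((m : ℝ) + 1) ^ 2 * ((m : ℝ) + 1) ^ (-s.re)) ≤
          (K + 1) * (((m : ℝ) + 1) ^ 2 * ((m : ℝ) + 1) ^ (-s.re)) := by
        gcongr; linarith
      refine h6.trans ?_
      have h7 := mul_le_mul_of_nonneg_right h1.le h5.le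
      have h8 : (m : ℝ) ^ s.re * ((m : ℝ) + 1) ^ (-s.re) * (2 * (K + 1) * ((m : ℝ) + 1) ^ 2) *
          (m : ℝ) ^ (-s.re) = ((m : ℝ) ^ s.re * (m : ℝ) ^ (-s.re)) *
          (2 * ((K + 1) * (((m : ℝ) + 1) ^ 2 * ((m : ℝ) + 1) ^ (-s.re)))) := by ring
      rw [h8, h4, one_mul] at h7
      linarith
    have h10 := norm_sub_le_norm_add (LSeries.term (cf l) s m)
      (∑' n, ite (n = m) 0 (LSeries.term (cf l) s n))
    rw [hterm] at h10
    have h11 : 0 < (m : ℝ) ^ (-s.re) := Real.rpow_pos_of_pos hm0 _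
    nlinarith
  refine ⟨max X0 2, le_max_right _ _, ?_, fun Y hY => ⟨‖cf l m‖ / 2 * (m : ℝ) ^ (-Y),
    by positivity, ?_⟩⟩
  · intro s hs h0
    have := main s hs
    rw [h0, norm_zero] at this
    have h2 : 0 < ‖cf l m‖ / 2 * (m : ℝ) ^ (-s.re) := by positivity
    linarith
  · intro s hs
    have := main s (by rw [hs]; exact hY)
    rwa [hs] at this

end Pool.Agent.K7.H52.SP
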