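import Pool.Agent.K7.H52.SP.Zb

/-!
The size of `op l` to the left of the critical strip in windows.
-/

open Complex Metric Set Filter Topology

namespace Pool.Agent.K7.H52.SP

open H345 H345.Chi H370 H370.Loc

/-- the twisted function -/
noncomputable def tw (l : List ℂ) (L : ℝ) (w : ℂ) : ℂ := op l w * cexp ((L : ℂ) * (w - 1 / 2))

lemma tw_norm (l : List ℂ) (L : ℝ) (w : ℂ) :
    ‖tw l L w‖ = ‖op l w‖ * Real.exp (L * (w.re - 1 / 2)) := by
  unfold tw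
  rw [norm_mul, Complex.norm_exp]
  congr 2
  simp

lemma tw_an (l : List ℂ) (L : ℝ) {w : ℂ} (hw : w ≠ 1) : AnalyticAt ℂ (tw l L) w :=
  (op_an l hw).mul (by fun_prop)

lemma tw_mult (l : List ℂ) (L : ℝ) {w : ℂ} (hw : w ≠ 1) : mult (tw l L) w = mult (op l) w := by
  unfold mult analyticOrderNatAt
  have h1 : AnalyticAt ℂ (fun w : ℂ => cexp ((L : ℂ) * (w - 1 / 2))) w := by fun_prop
  have h2 : analyticOrderAt (fun w : ℂ => cexp ((L : ℂ) * (w - 1 / 2))) w = 0 :=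
    h1.analyticOrderAt_eq_zero.2 (Complex.exp_ne_zero _)
  have h3 := analyticOrderAt_mul (op_an l hw) h1
  rw [h2, add_zero] at h3
  have e : tw l L = (op l) * (fun w : ℂ => cexp ((L : ℂ) * (w - 1 / 2))) := rfl
  rw [e, h3]

lemma el_le {w : ℂ} {T : ℝ} (h1 : |w.re| ≤ 3) (h2 : 1 ≤ w.im) (h3 : w.im ≤ 2 * T) (hT : 3 ≤ T) :
    0 ≤ 2 * el w ∧ 2 * el w ≤ 6 * Real.log T := by
  have h0 := abs_nonneg w.re
  have hp : |w.im| = w.im := abs_of_pos (by linarith)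
  constructor
  · have : 0 ≤ el w := by
      unfold el
      apply Real.log_nonneg
      rw [hp]
      linarith
    linarith
  · unfold el
    rw [hp]
    have h8 : Real.log (|w.re| + w.im) ≤ Real.log (T ^ 3) := by
      apply Real.log_le_log (by linarith)
      nlinarith [pow_pos (show 0 < T by linarith) 2]
    rw [Real.log_pow] at h8
    push_cast at h8
    linarith

lemma left_size (l : List ℂ) (W : ℝ) {η : ℝ} (hη : 0 < η) : ∃ T₀ : ℝ, 3 ≤ T₀ ∧ ∀ T : ℝ, T₀ ≤ T →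
    ∀ w : ℂ, -3 ≤ w.re → w.re ≤ -(1 / 2) → |w.im - T| ≤ W →
      ‖tw l (Real.log T) w‖ ≤ Real.exp (η * Real.log T) := by
  obtain ⟨Tl, hTl, hleft⟩ := op_left l (1 / 4) (by norm_num)
  obtain ⟨Cz, hCz, hzl⟩ := H448R2.GC.zeta_left 3
  obtain ⟨T₃, hT₃, hab3⟩ := absorb (Cz * 3 ^ (4 : ℝ)) (show 0 < η / 2 by positivity)
  obtain ⟨T₄, hT₄, hab4⟩ := absorb_log (6 ^ l.length) l.length (show 0 < η / 2 by positivity)
  refine ⟨max (max T₃ T₄) (max (2 * Tl) (2 * W)), hT₃.trans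
    ((le_max_left _ _).trans (le_max_left _ _)), ?_⟩
  intro T hT w h1 h2 hw
  have hTa : T₃ ≤ T := ((le_max_left _ _).trans (le_max_left _ _)).trans hT
  have hTb : T₄ ≤ T := ((le_max_right _ _).trans (le_max_left _ _)).trans hT
  have hTc : 2 * Tl ≤ T := ((le_max_left _ _).trans (le_max_right _ _)).trans hT
  have hTd : 2 * W ≤ T := ((le_max_right _ _).trans (le_max_right _ _)).trans hT
  have hT3 : 3 ≤ T := hT₃.trans hTa
  have hTpos : 0 < T := by linarith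
  obtain ⟨w1, w2, w3⟩ := window hT3 hTd hw
  obtain ⟨k1, k2, k3⟩ := hleft w (by linarith) (by linarith)
  rw [tw_norm]
  have hwp : 0 < w.im := by linarith
  have h5 := hzl w h1 h2
  rw [abs_of_pos hwp] at h5
  set L := Real.log T with hL
  have h6 : (1 + w.im) ^ (1 / 2 - w.re) ≤ 3 ^ (4 : ℝ) * Real.exp ((1 / 2 - w.re) * L) := by
    have e : Real.exp ((1 / 2 - w.re) * L) = T ^ (1 / 2 - w.re) := exp_mul_log hTpos
    rw [e]
    have g1 : (1 + w.im) ^ (1 / 2 - w.re) ≤ (3 * T) ^ (1 / 2 - w.re) :=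
      Real.rpow_le_rpow (by linarith) (by linarith) (by linarith)
    have g2 : (3 * T) ^ (1 / 2 - w.re) = 3 ^ (1 / 2 - w.re) * T ^ (1 / 2 - w.re) :=
      Real.mul_rpow (by norm_num) hTpos.le
    have g3 : (3 : ℝ) ^ (1 / 2 - w.re) ≤ 3 ^ (4 : ℝ) :=
      Real.rpow_le_rpow_of_exponent_le (by norm_num) (by linarith)
    rw [g2] at g1
    refine g1.trans ?_
    have g4 : 0 ≤ T ^ (1 / 2 - w.re) := Real.rpow_nonneg hTpos.le _
    exact mul_le_mul_of_nonneg_right g3 g4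
  obtain ⟨e0, e1⟩ := el_le (w := w) (T := T) (by rw [abs_le]; constructor <;> linarith) w3 w2 hT3
  have hlen : (2 * el w) ^ l.length ≤ Real.exp (η / 2 * L) := by
    refine le_trans (pow_le_pow_left₀ e0 e1 _) ?_
    rw [mul_pow]
    exact hab4 T hTb
  have h7 : ‖riemannZeta w‖ ≤ Cz * (3 ^ (4 : ℝ) * Real.exp ((1 / 2 - w.re) * L)) :=
    h5.trans (mul_le_mul_of_nonneg_left h6 hCz.le)
  have h8 := hab3 T hTa
  set Q := Cz * 3 ^ (4 : ℝ) with hQ
  calc ‖op l w‖ * Real.exp (L * (w.re - 1 / 2))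
      ≤ ((2 * el w) ^ l.length * ‖riemannZeta w‖) * Real.exp (L * (w.re - 1 / 2)) := by
        gcongr
    _ ≤ (Real.exp (η / 2 * L) * (Cz * (3 ^ (4 : ℝ) * Real.exp ((1 / 2 - w.re) * L)))) *
          Real.exp (L * (w.re - 1 / 2)) := by
        gcongr
    _ = Real.exp (η / 2 * L) * (Cz * 3 ^ (4 : ℝ)) *
          (Real.exp ((1 / 2 - w.re) * L) * Real.exp (L * (w.re - 1 / 2))) := by ring
    _ = Real.exp (η / 2 * L) * Q := by
        rw [← Real.exp_add, show (1 / 2 - w.re) * L + L * (w.re - 1 / 2) = 0 by ring,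
          Real.exp_zero, mul_one]
    _ ≤ Real.exp (η / 2 * L) * Real.exp (η / 2 * L) := by gcongr
    _ = Real.exp (η * L) := by rw [← Real.exp_add]; congr 1; ring

lemma left_size' (l : List ℂ) (W : ℝ) {η : ℝ} (hη : 0 < η) : ∃ T₀ : ℝ, 3 ≤ T₀ ∧ ∀ T : ℝ, T₀ ≤ T →
    ∀ w : ℂ, w.re = -1 → |w.im - T| ≤ W →
      Real.exp (-(η * Real.log T)) ≤ ‖tw l (Real.log T) w‖ := by
  obtain ⟨Tl, hTl, hleft⟩ := op_left l (1 / 4) (by norm_num)
  obtain ⟨Tm, hTm, hleft'⟩ := op_left [] (1 / 4) (by norm_num)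
  obtain ⟨Ci', hCi', hinv⟩ := H345.inv_zeta_left
  obtain ⟨T₃, hT₃, hab3⟩ := absorb (Ci' * 2 ^ (4 : ℝ)) hη
  refine ⟨max T₃ (max (2 * Tl) (max (2 * Tm) (2 * W))), hT₃.trans (le_max_left _ _), ?_⟩
  intro T hT w h1 hw
  have hTa : T₃ ≤ T := (le_max_left _ _).trans hT
  have hTc : 2 * Tl ≤ T := ((le_max_left _ _).trans (le_max_right _ _)).trans hT
  have hTe : 2 * Tm ≤ T :=
    ((le_max_left _ _).trans ((le_max_right _ _).trans (le_max_right _ _))).trans hT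
  have hTd : 2 * W ≤ T :=
    ((le_max_right _ _).trans ((le_max_right _ _).trans (le_max_right _ _))).trans hT
  have hT3 : 3 ≤ T := hT₃.trans hTa
  obtain ⟨w1, w2, w3⟩ := window hT3 hTd hw
  obtain ⟨k1, k2, k3⟩ := hleft w (by linarith) (by linarith)
  have hζ : riemannZeta w ≠ 0 := (hleft' w (by linarith) (by linarith)).1
  have h2 := hinv w.im w3
  have hwe : (-1 + (w.im : ℂ) * I) = w := by
    apply Complex.ext <;> simp [h1]
  rw [hwe, norm_inv] at h2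
  have h3 := rpow_window (x := -(3 / 2)) (X := 4) hT3 w1 w2 (by rw [abs_neg, abs_of_pos] <;> norm_num)
  set L := Real.log T with hL
  have h4 : ‖riemannZeta w‖⁻¹ ≤ Real.exp (η * L) * Real.exp (-(3 / 2) * L) := by
    calc ‖riemannZeta w‖⁻¹ ≤ Ci' * (2 ^ (4 : ℝ) * Real.exp (-(3 / 2) * L)) :=
          h2.trans (mul_le_mul_of_nonneg_left h3 hCi'.le)
      _ = (Ci' * 2 ^ (4 : ℝ)) * Real.exp (-(3 / 2) * L) := by ring
      _ ≤ _ := by
          gcongr
          exact hab3 T hTa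
  have hpos : 0 < ‖riemannZeta w‖ := norm_pos_iff.2 hζ
  rw [inv_le_comm₀ hpos (by positivity), ← Real.exp_add, ← Real.exp_neg] at h4
  rw [tw_norm, h1]
  calc Real.exp (-(η * L)) = Real.exp (-(η * L + -(3 / 2) * L)) * Real.exp (L * (-1 - 1 / 2)) := by
        rw [← Real.exp_add]; congr 1; ring
    _ ≤ ‖op l w‖ * Real.exp (L * (-1 - 1 / 2)) := by
        gcongr
        exact h4.trans k2

end Pool.Agent.K7.H52.SP
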