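import Pool.Agent.K7.H52.SP.LSize

/-!
Few zeros of `op l` on either side of the critical line imply small values of zeta.
-/

open Complex Metric Set Filter Topology

namespace Pool.Agent.K7.H52.SP

open H345 H345.Chi H370 H370.Loc

lemma ball_coord {c z : ℂ} {r : ℝ} (hz : z ∈ closedBall c r) :
    c.re - r ≤ z.re ∧ z.re ≤ c.re + r ∧ c.im - r ≤ z.im ∧ z.im ≤ c.im + r := by
  rw [mem_closedBall, dist_eq_norm] at hz
  have h1 := abs_le.1 ((Complex.abs_re_le_norm (z - c)).trans hz)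
  have h2 := abs_le.1 ((Complex.abs_im_le_norm (z - c)).trans hz)
  rw [Complex.sub_re] at h1
  rw [Complex.sub_im] at h2
  refine ⟨by linarith [h1.1], by linarith [h1.2], by linarith [h2.1], by linarith [h2.2]⟩

lemma log_ge_of {L₀ T : ℝ} (h : Real.exp L₀ ≤ T) : L₀ ≤ Real.log T := by
  rw [Real.le_log_iff_exp_le (lt_of_lt_of_le (Real.exp_pos _) h)]
  exact h

/-- few zeros to the right imply small values of zeta -/
theorem right_small (l : List ℂ) {ϑ δ ε W₀ : ℝ} (hϑ : 1 / 4 ≤ ϑ) (hϑ1 : ϑ ≤ 1) (hδ : 0 < δ)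
    (hδ1 : δ ≤ 1 / 4) (hε : 0 < ε) (hW₀ : 0 ≤ W₀) :
    ∃ η W T₀ : ℝ, 0 < η ∧ 0 ≤ W ∧ 3 ≤ T₀ ∧ ∀ T : ℝ, T₀ ≤ T →
      (∀ S : Finset ℂ, (∀ s ∈ S, ϑ - δ ≤ s.re ∧ |s.im - T| ≤ W) →
        ∑ s ∈ S, (mult (op l) s : ℝ) ≤ η * Real.log T) →
      ∀ s : ℂ, ϑ ≤ s.re → s.re ≤ 2 → |s.im - T| ≤ W₀ →
        ‖riemannZeta s‖ ≤ Real.exp (ε * Real.log T) := by
  obtain ⟨X, hX2, hXne, hXlow⟩ := op_far l
  set Xc : ℝ := X + 1 with hXc
  obtain ⟨a, ha, halow⟩ := hXlow Xc (by linarith)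
  set R : ℝ := Xc - ϑ + 2 * δ with hR
  have hR1 : 1 ≤ R := by linarith
  obtain ⟨B, hB, hgr'⟩ := growth_op l 3
  obtain ⟨T₁, hT₁, hgr⟩ := hgr' (W₀ + R)
  obtain ⟨η, hη, L₀, hL₀, hbk⟩ := bk (R := R) (δ := δ) (l := 1 / 2) (B := B) (ε := ε / 2)
    (by linarith) hδ (by norm_num) (by linarith) hB (by positivity)
  obtain ⟨Cr, hCr, hr⟩ := op_right l
  obtain ⟨Ci, hCi, hi⟩ := op_int l 0 Xc (by linarith) le_rfl
  obtain ⟨T₂, hT₂, hab2⟩ := absorb (max Cr (1 / a)) hη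
  obtain ⟨T₃, hT₃, hab3⟩ := absorb Ci (show 0 < ε / 2 by positivity)
  refine ⟨η, W₀ + R, max (max T₁ T₂) (max (max T₃ (Real.exp L₀)) (W₀ + R + 2)), hη, by linarith,
    hT₁.trans ((le_max_left _ _).trans (le_max_left _ _)), ?_⟩
  intro T hT hfew s hs1 hs2 hsW
  have hTa : T₁ ≤ T := ((le_max_left _ _).trans (le_max_left _ _)).trans hT
  have hTb : T₂ ≤ T := ((le_max_right _ _).trans (le_max_left _ _)).trans hT
  have hTc : T₃ ≤ T := ((le_max_left _ _).trans ((le_max_left _ _).trans (le_max_right _ _))).trans hT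
  have hTd : Real.exp L₀ ≤ T :=
    ((le_max_right _ _).trans ((le_max_left _ _).trans (le_max_right _ _))).trans hT
  have hTe : W₀ + R + 2 ≤ T := ((le_max_right _ _).trans (le_max_right _ _)).trans hT
  have hL : L₀ ≤ Real.log T := log_ge_of hTd
  set L := Real.log T with hLdef
  have hL0 : 0 < L := by linarith
  set t := s.im with ht
  have htW := abs_le.1 hsW
  set c : ℂ := ⟨Xc, t⟩ with hc
  have hwin : ∀ z ∈ closedBall c R, -3 ≤ z.re ∧ |z.im - T| ≤ W₀ + R ∧ z ≠ 1 := by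
    intro z hz
    obtain ⟨h1, h2, h3, h4⟩ := ball_coord hz
    simp only [hc] at h1 h2 h3 h4
    refine ⟨by linarith, abs_le.2 ⟨by linarith, by linarith⟩, ne_one_of_im' (by linarith)⟩
  have hab2' := hab2 T hTb
  have hop := hbk L hL (op l) c (fun z hz => op_an l (hwin z hz).2.2)
    (fun z hz => hgr T hTa z (hwin z hz).1 (hwin z hz).2.1)
    (by
      intro z hz
      obtain ⟨h1, h2, h3, h4⟩ := ball_coord hz
      simp only [hc] at h1
      refine ⟨hXne z (by linarith), ?_⟩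
      exact (hr z (by linarith)).trans ((le_max_left _ _).trans hab2'))
    (by
      have h1 := halow c rfl
      have h2 : 1 / a ≤ Real.exp (η * L) := (le_max_right _ _).trans hab2'
      rw [Real.exp_neg]
      refine le_trans ?_ h1
      rw [div_le_iff₀ ha] at h2
      rw [inv_le_comm₀ (Real.exp_pos _) ha]
      rw [inv_eq_one_div, div_le_iff₀ ha]
      exact h2)
    (by
      intro S hS
      refine hfew S fun z hz => ?_
      obtain ⟨h1, h2, h3, h4⟩ := ball_coord (hS z hz).1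
      simp only [hc] at h1 h2 h3 h4
      refine ⟨by linarith, abs_le.2 ⟨by linarith, by linarith⟩⟩)
  -- horizontal segment
  have hseg : ∀ z : ℂ, z.im = t → ϑ ≤ z.re → z.re ≤ Xc → ‖op l z‖ ≤ Real.exp (ε / 2 * L) := by
    intro z hz1 hz2 hz3
    refine hop z ?_
    rw [mem_closedBall, dist_eq_norm]
    have : z - c = ((z.re - Xc : ℝ) : ℂ) := by
      apply Complex.ext <;> simp [hc, hz1]
    rw [this, Complex.norm_real, Real.norm_eq_abs, abs_le]
    constructor <;> linarith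
  have hfin := hi t ϑ (Real.exp (ε / 2 * L)) (by linarith) (by linarith)
    (Real.one_le_exp (by positivity)) hseg s rfl hs1 (by linarith)
  calc ‖riemannZeta s‖ ≤ Ci * Real.exp (ε / 2 * L) := hfin
    _ ≤ Real.exp (ε / 2 * L) * Real.exp (ε / 2 * L) := by
        gcongr
        exact hab3 T hTc
    _ = Real.exp (ε * L) := by rw [← Real.exp_add]; congr 1; ring

/-- few zeros to the left: the bound for `op l` -/
theorem left_op (l : List ℂ) {ϑ δ ε W₁ : ℝ} (hϑ : 1 / 2 ≤ ϑ) (hϑ1 : ϑ < 1) (hδ : 0 < δ)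
    (hδ1 : δ ≤ 1 / 8) (hε : 0 < ε) (hW₁ : 0 ≤ W₁) :
    ∃ η W T₀ : ℝ, 0 < η ∧ 0 ≤ W ∧ 3 ≤ T₀ ∧ ∀ T : ℝ, T₀ ≤ T →
      (∀ S : Finset ℂ, (∀ s ∈ S, s.re ≤ 1 - ϑ + δ ∧ |s.im - T| ≤ W) →
        ∑ s ∈ S, (mult (op l) s : ℝ) ≤ η * Real.log T) →
      ∀ s : ℂ, s.re = 1 - ϑ → |s.im - T| ≤ W₁ →
        ‖op l s‖ ≤ Real.exp ((ϑ - 1 / 2 + ε) * Real.log T) := by
  set R : ℝ := 2 - ϑ + 2 * δ with hR
  have hR1 : 1 ≤ R := by linarith
  have hR2 : R ≤ 2 := by linarith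
  obtain ⟨B, hB, hgr'⟩ := growth_op l 4
  obtain ⟨T₁, hT₁, hgr⟩ := hgr' (W₁ + R)
  obtain ⟨η, hη, L₀, hL₀, hbk⟩ := bk (R := R) (δ := δ) (l := 1 / 2) (B := B + 4) (ε := ε)
    (by linarith) hδ (by norm_num) (by linarith) (by linarith) hε
  obtain ⟨T₂, hT₂, hsz⟩ := left_size l (W₁ + R) hη
  obtain ⟨T₃, hT₃, hsz'⟩ := left_size' l W₁ hη
  obtain ⟨T₄, hT₄, hne⟩ := op_left l (1 / 4) (by norm_num)
  set T₀ : ℝ := T₁ + T₂ + T₃ + T₄ + Real.exp L₀ + 2 * (W₁ + R + 2) with hT₀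
  have hexpL : 0 < Real.exp L₀ := Real.exp_pos _
  refine ⟨η, W₁ + R, T₀, hη, by linarith, by linarith, ?_⟩
  intro T hT hfew z hz1 hz2
  have hTpos : 0 < T := by linarith
  have hL : L₀ ≤ Real.log T := log_ge_of (by linarith)
  have htW := abs_le.1 hz2
  set c : ℂ := ⟨-1, z.im⟩ with hc
  have hwin : ∀ w ∈ closedBall c R, -3 ≤ w.re ∧ w.re ≤ 1 ∧ |w.im - T| ≤ W₁ + R ∧ w ≠ 1 := by
    intro w hw
    obtain ⟨h1, h2, h3, h4⟩ := ball_coord hw
    simp only [hc] at h1 h2 h3 h4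
    refine ⟨by linarith, by linarith, abs_le.2 ⟨by linarith, by linarith⟩,
      ne_one_of_im' (by linarith)⟩
  set L := Real.log T with hLdef
  have hL0 : 0 < L := by linarith
  have hop := hbk L hL (tw l L) c (fun w hw => tw_an l L (hwin w hw).2.2.2)
    (by
      intro w hw
      obtain ⟨g1, g2, g3, g4⟩ := hwin w hw
      rw [tw_norm]
      have h1 := hgr T (by linarith) w (by linarith) g3
      have h2 : L * (w.re - 1 / 2) ≤ 4 * L := by nlinarith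
      calc ‖op l w‖ * Real.exp (L * (w.re - 1 / 2)) ≤ Real.exp (B * L) * Real.exp (4 * L) := by
            gcongr
        _ = _ := by rw [← Real.exp_add]; congr 1; ring)
    (by
      intro w hw
      obtain ⟨g1, g2, g3, g4⟩ := hwin w (closedBall_subset_closedBall (by linarith) hw)
      obtain ⟨h1, h2, h3, h4⟩ := ball_coord hw
      simp only [hc] at h1 h2 h3 h4
      exact ⟨mul_ne_zero (hne w (by linarith) (by linarith)).1 (Complex.exp_ne_zero _),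
        hsz T (by linarith) w g1 (by linarith) g3⟩)
    (hsz' T (by linarith) c rfl (by simpa [hc] using hz2))
    (by
      intro S hS
      have hS' : ∑ w ∈ S, (mult (tw l L) w : ℝ) = ∑ w ∈ S, (mult (op l) w : ℝ) := by
        refine Finset.sum_congr rfl fun w hw => ?_
        rw [tw_mult l L (hwin w (closedBall_subset_closedBall (by linarith) (hS w hw).1)).2.2.2]
      rw [hS']
      refine hfew S fun w hw => ?_
      obtain ⟨h1, h2, h3, h4⟩ := ball_coord (hS w hw).1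
      simp only [hc] at h1 h2 h3 h4
      refine ⟨by linarith, abs_le.2 ⟨by linarith, by linarith⟩⟩)
  have h1 := hop z (by
    rw [mem_closedBall, dist_eq_norm]
    have : z - c = ((2 - ϑ : ℝ) : ℂ) := by
      apply Complex.ext
      · simp [hc, hz1]; ring
      · simp [hc]
    rw [this, Complex.norm_real, Real.norm_eq_abs, abs_of_pos (by linarith)]
    linarith)
  rw [tw_norm, hz1] at h1
  have h2 : 0 < Real.exp (L * (1 - ϑ - 1 / 2)) := Real.exp_pos _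
  rw [← le_div_iff₀ h2, ← Real.exp_sub] at h1
  refine h1.trans (le_of_eq ?_)
  congr 1
  ring

/-- few zeros to the left imply small values of zeta to the right -/
theorem left_small (l : List ℂ) {ϑ δ ε W₀ : ℝ} (hϑ : 1 / 2 ≤ ϑ) (hϑ1 : ϑ < 1) (hδ : 0 < δ)
    (hδ1 : δ ≤ 1 / 8) (hε : 0 < ε) (hW₀ : 0 ≤ W₀) :
    ∃ η W T₀ : ℝ, 0 < η ∧ 0 ≤ W ∧ 3 ≤ T₀ ∧ ∀ T : ℝ, T₀ ≤ T →
      (∀ S : Finset ℂ, (∀ s ∈ S, s.re ≤ 1 - ϑ + δ ∧ |s.im - T| ≤ W) →
        ∑ s ∈ S, (mult (op l) s : ℝ) ≤ η * Real.log T) →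
      ∀ s : ℂ, s.re = ϑ → |s.im - T| ≤ W₀ →
        ‖riemannZeta s‖ ≤ Real.exp (ε * Real.log T) := by
  set ε₁ : ℝ := ε / 4 with hε₁
  have hε₁0 : 0 < ε₁ := by positivity
  obtain ⟨B, hB, hgr'⟩ := growth_op l 4
  obtain ⟨Wl, hWl, hltl⟩ := ltl (a := 1 - ϑ) (b := 2) (α := ϑ - 1 / 2 + ε₁) (β := ε₁) (B := B)
    (ε := ε₁) (by linarith) hB hε₁0
  set W₁ : ℝ := W₀ + Wl with hW₁
  obtain ⟨η, W, T₁, hη, hW, hT₁, hlo⟩ := left_op l (W₁ := W₁) hϑ hϑ1 hδ hδ1 hε₁0 (by linarith)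
  obtain ⟨T₂, hT₂, hgr⟩ := hgr' W₁
  obtain ⟨Cr, hCr, hr⟩ := op_right l
  obtain ⟨Ci, hCi, hi⟩ := op_int l 1 2 le_rfl (by norm_num)
  obtain ⟨T₃, hT₃, hab⟩ := absorb (max Cr Ci) hε₁0
  obtain ⟨T₄, hT₄, hfe⟩ := fe_window W₀ hε₁0
  set T₀ : ℝ := T₁ + T₂ + T₃ + T₄ + (W₁ + 2) with hT₀
  refine ⟨η, W, T₀, hη, hW, by linarith, ?_⟩
  intro T hT hfew s hs1 hs2
  have hline := hlo T (by linarith) hfew
  have hab' := hab T (by linarith)
  have hTpos : 3 ≤ T := by linarith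
  have hL0 : 0 < Real.log T := Real.log_pos (by linarith)
  set L := Real.log T with hLdef
  have hsW := abs_le.1 hs2
  -- the three lines theorem at the height of `s`
  have h3 := hltl L hL0.le (op l) s.im
    (fun w _ _ hw => (op_an l (ne_one_of_im' (by
      have := abs_le.1 hw
      linarith))).differentiableAt)
    (fun w hw1 _ hw => hgr T (by linarith) w (by linarith) (by
      have := abs_le.1 hw
      rw [abs_le]
      constructor <;> linarith))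
    (fun w hw1 hw => hline w hw1 (by
      have := abs_le.1 hw
      rw [abs_le]
      constructor <;> linarith))
    (fun w hw1 _ => (hr w (by linarith)).trans ((le_max_left _ _).trans hab'))
  have hseg : ∀ w : ℂ, w.im = s.im → 1 - ϑ ≤ w.re → w.re ≤ 2 →
      ‖op l w‖ ≤ Real.exp ((ϑ - 1 / 2 + 2 * ε₁) * L) := by
    intro w hw1 hw2 hw3
    refine (h3 w hw2 hw3 hw1).trans (Real.exp_le_exp.2 (mul_le_mul_of_nonneg_right ?_ hL0.le))
    have h5 : 0 ≤ (w.re - (1 - ϑ)) / (2 - (1 - ϑ)) := div_nonneg (by linarith) (by linarith)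
    have h6 : 0 ≤ (ϑ - 1 / 2) * ((w.re - (1 - ϑ)) / (2 - (1 - ϑ))) :=
      mul_nonneg (by linarith) h5
    linarith
  set w : ℂ := ⟨1 - ϑ, s.im⟩ with hw
  have h4 := hi s.im (1 - ϑ) (Real.exp ((ϑ - 1 / 2 + 2 * ε₁) * L)) (by linarith) (by linarith)
    (Real.one_le_exp (by
      have : 0 ≤ ϑ - 1 / 2 + 2 * ε₁ := by linarith
      positivity)) hseg w rfl le_rfl (by
      show 1 - ϑ ≤ 2
      linarith)
  have h5 := (hfe T (by linarith) s w (by rw [hs1]; exact hϑ) (by rw [hs1]; linarith) hs2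
    (by rw [hs1]) rfl).2
  rw [hs1] at h5
  calc ‖riemannZeta s‖ ≤ Real.exp ((1 / 2 - ϑ + ε₁) * L) * ‖riemannZeta w‖ := h5
    _ ≤ Real.exp ((1 / 2 - ϑ + ε₁) * L) * (Real.exp (ε₁ * L) *
          Real.exp ((ϑ - 1 / 2 + 2 * ε₁) * L)) := by
        gcongr
        refine h4.trans ?_
        gcongr
        exact (le_max_right _ _).trans hab'
    _ = Real.exp (ε * L) := by
        rw [← Real.exp_add, ← Real.exp_add]; congr 1; rw [hε₁]; ring

end Pool.Agent.K7.H52.SP
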