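import Pool.Agent.K7.H52.SP.Far
import Pool.Agent.W354.PK.DigK
import Pool.Agent.H31R2.DH.BackZeta

/-!
Differential operators applied to the zeta function, to the left of the critical strip.
-/

open Complex Metric Set Filter Topology

namespace Pool.Agent.K7.H52.SP

open H345 H345.Chi

/-- `log (|Re w| + |Im w|)` -/
noncomputable def el (w : ℂ) : ℝ := Real.log (|w.re| + |w.im|)

def HL (f : ℂ → ℂ) : Prop := ∀ X : ℝ, 0 < X → ∃ C T₀ : ℝ, 0 ≤ C ∧ 2 ≤ T₀ ∧
  ∀ w : ℂ, w.re ≤ -X → T₀ ≤ w.im → f w ≠ 0 ∧ ‖logDeriv f w + el w‖ ≤ C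

lemma log_le_add_one {A B : ℝ} (hA : 1 ≤ A) (hB : 0 < B) (h : B ≤ A + 1) :
    Real.log B ≤ Real.log A + 1 := by
  have h1 : Real.log A + 1 = Real.log (A * Real.exp 1) := by
    rw [Real.log_mul (by linarith) (Real.exp_pos _).ne', Real.log_exp]
  rw [h1]
  apply Real.log_le_log hB
  have := Real.add_one_le_exp (1 : ℝ)
  nlinarith

lemma el_close {w z : ℂ} {r : ℝ} (hr : r ≤ 1 / 2) (hw : 2 ≤ w.im) (hz : ‖z - w‖ ≤ r) :
    |el z - el w| ≤ 1 := by
  have h1 := (abs_abs_sub_abs_le z.re w.re).trans ((Complex.abs_re_le_norm (z - w)).trans hz)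
  have h2 := (abs_abs_sub_abs_le z.im w.im).trans ((Complex.abs_im_le_norm (z - w)).trans hz)
  have h3 := abs_le.1 h1
  have h4 := abs_le.1 h2
  have h5 : 2 ≤ |w.im| := hw.trans (le_abs_self _)
  have h6 := abs_nonneg w.re
  have h6' := abs_nonneg z.re
  set A := |w.re| + |w.im| with hA
  set B := |z.re| + |z.im| with hB
  have hA2 : 2 ≤ A := by linarith
  have hBA : B ≤ A + 1 := by linarith
  have hAB : A ≤ B + 1 := by linarith
  have hB1 : 1 ≤ B := by linarith
  unfold el
  rw [← hA, ← hB, abs_le]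
  constructor
  · have : Real.log A ≤ Real.log B + 1 := by
      rw [← Real.log_exp 1, ← Real.log_mul (by linarith) (Real.exp_pos _).ne']
      apply Real.log_le_log (by linarith)
      have := Real.add_one_le_exp (1 : ℝ)
      nlinarith
    linarith
  · have : Real.log B ≤ Real.log A + 1 := by
      rw [← Real.log_exp 1, ← Real.log_mul (by linarith) (Real.exp_pos _).ne']
      apply Real.log_le_log (by linarith)
      have := Real.add_one_le_exp (1 : ℝ)
      nlinarith
    linarith

lemma L2_big : ∃ K : ℝ, 0 ≤ K ∧ ∀ s : ℂ, 1 ≤ s.re → 1 ≤ s.im →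
    ‖L2 s - (Real.log (s.re + s.im) : ℂ)‖ ≤ K := by
  obtain ⟨C, hC, h⟩ := Pool.Agent.W354.PK.DigK.dig_big
  have hpi := Real.pi_pos
  refine ⟨|Real.log (2 * Real.pi)| + (C + 1) + (1 + Real.pi / 2), by positivity, ?_⟩
  intro s hs1 hs2
  set m : ℕ := ⌊s.re⌋₊ with hm
  have hm1 : (m : ℝ) ≤ s.re := Nat.floor_le (by linarith)
  have hm2 : s.re < m + 1 := Nat.lt_floor_add_one _
  set z : ℂ := s - m with hz
  have hzre : z.re = s.re - m := by simp [hz]
  have hzim : z.im = s.im := by simp [hz]
  have hsz : s = z + m := by rw [hz]; ring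
  have h1 := h m z (by rw [hzre]; linarith) (by rw [hzre]; linarith)
    (by rw [hzim]; exact hs2.trans (le_abs_self _))
  rw [← hsz, hzim, abs_of_pos (by linarith)] at h1
  have h2 : ‖(Real.log (m + s.im) : ℂ) - (Real.log (s.re + s.im) : ℂ)‖ ≤ 1 := by
    rw [← Complex.ofReal_sub, Complex.norm_real, Real.norm_eq_abs, abs_le]
    have hm0 : (0 : ℝ) ≤ m := Nat.cast_nonneg m
    constructor
    · have : Real.log (s.re + s.im) ≤ Real.log (m + s.im) + 1 := by
        rw [← Real.log_exp 1, ← Real.log_mul (by linarith) (Real.exp_pos _).ne']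
        apply Real.log_le_log (by linarith)
        have := Real.add_one_le_exp (1 : ℝ)
        nlinarith
      linarith
    · have : Real.log (m + s.im) ≤ Real.log (s.re + s.im) :=
        Real.log_le_log (by linarith) (by linarith)
      linarith
  have h3 := tan_close hs2
  have h4 : ‖(Real.pi / 2 : ℂ) * I‖ = Real.pi / 2 := by
    rw [norm_mul, norm_I, mul_one, norm_div, Complex.norm_real, Real.norm_of_nonneg hpi.le]
    simp
  have h5 : 1 / s.im ≤ 1 := by rw [div_le_one (by linarith)]; exact hs2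
  set tt := (Real.pi / 2 : ℂ) * (Complex.sin (Real.pi * s / 2) / Complex.cos (Real.pi * s / 2))
    with htt
  have h6 : ‖tt‖ ≤ 1 + Real.pi / 2 := by
    have : tt = (tt - (Real.pi / 2 : ℂ) * I) + (Real.pi / 2 : ℂ) * I := by ring
    rw [this]
    refine (norm_add_le _ _).trans ?_
    rw [h4]
    linarith
  have e : L2 s - (Real.log (s.re + s.im) : ℂ) = -(Real.log (2 * Real.pi) : ℂ) +
      ((logDeriv Gamma s - (Real.log (m + s.im) : ℂ)) +
        ((Real.log (m + s.im) : ℂ) - (Real.log (s.re + s.im) : ℂ))) - tt := by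
    rw [L2, ← htt]; ring
  rw [e]
  refine (norm_sub_le _ _).trans (add_le_add ((norm_add_le _ _).trans (add_le_add ?_
    ((norm_add_le _ _).trans (add_le_add h1 h2)))) h6)
  rw [norm_neg, Complex.norm_real, Real.norm_eq_abs]

lemma logDeriv_zeta_bd {X : ℝ} (hX : 0 < X) : ∃ C : ℝ, 0 ≤ C ∧ ∀ s : ℂ, 1 + X ≤ s.re →
    ‖logDeriv riemannZeta s‖ ≤ C := by
  obtain ⟨A, hA1, hA⟩ := DH31.zeta_bounds (a := 1 + X / 2) (by linarith)
  refine ⟨A / (X / 2) * A, by positivity, ?_⟩
  intro s hs
  have hre : ∀ z ∈ closedBall s (X / 2), 1 + X / 2 ≤ z.re := by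
    intro z hz
    rw [mem_closedBall, dist_eq_norm] at hz
    have h1 := (abs_le.1 ((Complex.abs_re_le_norm (z - s)).trans hz)).1
    rw [Complex.sub_re] at h1
    linarith
  have hd : ‖deriv riemannZeta s‖ ≤ A / (X / 2) := by
    refine Complex.norm_deriv_le_of_forall_mem_sphere_norm_le (by positivity) ?_ ?_
    · apply DifferentiableOn.diffContOnCl
      intro z hz
      have hz' : z ∈ closedBall s (X / 2) := closure_ball_subset_closedBall hz
      exact (zeta_an (ne_one_of_re' (by linarith [hre z hz']))).differentiableAt.differentiableWithinAt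
    · intro z hz'
      exact (hA z (hre z (sphere_subset_closedBall hz'))).1
  have h2 := (hA s (by linarith)).2
  have h3 : 0 < ‖riemannZeta s‖ := lt_of_lt_of_le (by positivity) h2
  rw [logDeriv_apply, norm_div, div_le_iff₀ h3]
  have h4 : 1 ≤ A * ‖riemannZeta s‖ := by
    rw [div_le_iff₀ (by linarith)] at h2
    linarith
  calc ‖deriv riemannZeta s‖ ≤ A / (X / 2) * 1 := by linarith
    _ ≤ A / (X / 2) * (A * ‖riemannZeta s‖) := by gcongr
    _ = _ := by ring

/-- functional equation for the logarithmic derivative -/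
lemma logDeriv_fe {s : ℂ} (h1 : 1 < s.re) (h2 : 1 ≤ s.im) :
    logDeriv riemannZeta (1 - s) = -(L2 s + logDeriv riemannZeta s) := by
  have hs1 : s ≠ 1 := ne_one_of_re' h1
  have hX := hasDerivAt_XX (by linarith : 0 < s.re) h2
  have hz : HasDerivAt riemannZeta (deriv riemannZeta s) s :=
    (differentiableAt_riemannZeta hs1).hasDerivAt
  have h3 := hX.mul hz
  have hs2 : (1 - s) ≠ 1 := by
    intro h
    have : s = 0 := by linear_combination -h
    rw [this] at h1
    norm_num at h1
  have hz2 : HasDerivAt riemannZeta (deriv riemannZeta (1 - s)) (1 - s) :=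
    (differentiableAt_riemannZeta hs2).hasDerivAt
  have h4 : HasDerivAt (fun z : ℂ => riemannZeta (1 - z)) (deriv riemannZeta (1 - s) * (-1)) s := by
    have e : HasDerivAt (fun z : ℂ => 1 - z) (-1) s := by
      simpa using (hasDerivAt_id s).const_sub 1
    exact HasDerivAt.comp s hz2 e
  have hev : (fun z : ℂ => riemannZeta (1 - z)) =ᶠ[𝓝 s] fun z => XX z * riemannZeta z := by
    have hopen : IsOpen {z : ℂ | 1 < z.re} := isOpen_lt continuous_const continuous_re
    filter_upwards [hopen.mem_nhds h1] with z hz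
    have hz' : 1 < z.re := hz
    refine H345.zeta_fe z ?_ (ne_one_of_re' hz')
    intro n hn
    rw [hn] at hz'
    simp at hz'
    have : (0 : ℝ) ≤ n := Nat.cast_nonneg n
    linarith
  have h5 := (hev.hasDerivAt_iff.1 h4).unique h3
  have h6 : riemannZeta (1 - s) = XX s * riemannZeta s := hev.self_of_nhds
  have hζ : riemannZeta s ≠ 0 := riemannZeta_ne_zero_of_one_le_re h1.le
  have hXne := XX_ne (by linarith : 0 < s.re) h2
  rw [logDeriv_apply, logDeriv_apply, h6]
  have h7 : deriv riemannZeta (1 - s) = -(XX s * L2 s * riemannZeta s + XX s * deriv riemannZeta s) := by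
    linear_combination -h5
  rw [h7]
  field_simp

lemma deriv_zeta_conj (w : ℂ) :
    deriv riemannZeta ((starRingEnd ℂ) w) = (starRingEnd ℂ) (deriv riemannZeta w) := by
  have h : (starRingEnd ℂ) ∘ riemannZeta ∘ (starRingEnd ℂ) = riemannZeta := by
    funext z
    simp [riemannZeta_conj]
  have h2 := congrFun (deriv_conj_conj (f := riemannZeta)) ((starRingEnd ℂ) w)
  rw [h] at h2
  simpa using h2

theorem zeta_HL : HL riemannZeta := by
  intro X hX
  obtain ⟨K, hK, hL⟩ := L2_big
  obtain ⟨C, hC, hZ⟩ := logDeriv_zeta_bd hX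
  refine ⟨K + 1 + C, 2, by positivity, le_rfl, ?_⟩
  intro w hw1 hw2
  set s : ℂ := 1 - (starRingEnd ℂ) w with hs
  have hsre : s.re = 1 - w.re := by simp [hs]
  have hsim : s.im = w.im := by simp [hs]
  have hws : (starRingEnd ℂ) w = 1 - s := by rw [hs]; ring
  have h1 : 1 < s.re := by rw [hsre]; linarith
  have h2 : 1 ≤ s.im := by rw [hsim]; linarith
  have hld := logDeriv_fe h1 h2
  have hXne := XX_ne (by linarith : 0 < s.re) h2
  have hfe : riemannZeta (1 - s) = XX s * riemannZeta s := by
    refine H345.zeta_fe s ?_ (ne_one_of_re' h1)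
    intro n hn
    rw [hn] at h1
    simp at h1
    have : (0 : ℝ) ≤ n := Nat.cast_nonneg n
    linarith
  have hne : riemannZeta w ≠ 0 := by
    intro h0
    have h3 : riemannZeta ((starRingEnd ℂ) w) = 0 := by rw [riemannZeta_conj, h0, map_zero]
    rw [hws, hfe] at h3
    rcases mul_eq_zero.1 h3 with h | h
    · exact hXne h
    · exact riemannZeta_ne_zero_of_one_le_re h1.le h
  refine ⟨hne, ?_⟩
  have h4 : logDeriv riemannZeta ((starRingEnd ℂ) w) = (starRingEnd ℂ) (logDeriv riemannZeta w) := by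
    rw [logDeriv_apply, logDeriv_apply, deriv_zeta_conj, riemannZeta_conj, map_div₀]
  have h5 : ‖logDeriv riemannZeta w + el w‖ = ‖logDeriv riemannZeta (1 - s) + el w‖ := by
    rw [← hws, h4, ← Complex.norm_conj (logDeriv riemannZeta w + el w), map_add, Complex.conj_ofReal]
  rw [h5, hld]
  have h6 := hL s h1.le h2
  have h7 := hZ s (by rw [hsre]; linarith)
  have h8 : |Real.log (s.re + s.im) - el w| ≤ 1 := by
    unfold el
    have hwneg : |w.re| = -w.re := abs_of_neg (by linarith)
    have hwp : |w.im| = w.im := abs_of_pos (by linarith)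
    rw [hsre, hsim, hwneg, hwp, abs_le]
    constructor
    · have : Real.log (-w.re + w.im) ≤ Real.log (1 - w.re + w.im) :=
        Real.log_le_log (by linarith) (by linarith)
      linarith
    · have : Real.log (1 - w.re + w.im) ≤ Real.log (-w.re + w.im) + 1 :=
        log_le_add_one (by linarith) (by linarith) (by linarith)
      linarith
  have e : -(L2 s + logDeriv riemannZeta s) + (el w : ℂ) =
      -((L2 s - (Real.log (s.re + s.im) : ℂ)) + ((Real.log (s.re + s.im) - el w : ℝ) : ℂ) +
        logDeriv riemannZeta s) := by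
    push_cast; ring
  rw [e, norm_neg]
  refine (norm_add_le _ _).trans (add_le_add ((norm_add_le _ _).trans (add_le_add h6 ?_)) h7)
  rw [Complex.norm_real, Real.norm_eq_abs]
  exact h8

theorem HL_step {f : ℂ → ℂ} (hf : ∀ s : ℂ, 0 < s.im → AnalyticAt ℂ f s) (a : ℂ) (H : HL f) :
    HL (fun s => deriv f s - a * f s) := by
  intro X hX
  obtain ⟨C, T₀, hC, hT₀, h⟩ := H (X / 2) (by positivity)
  set r : ℝ := min (X / 2) (1 / 2) with hr
  have hr0 : 0 < r := lt_min (by positivity) (by norm_num)
  have hr1 : r ≤ X / 2 := min_le_left _ _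
  have hr2 : r ≤ 1 / 2 := min_le_right _ _
  set C2 : ℝ := (C + 1) / r with hC2
  have hC20 : 0 ≤ C2 := by positivity
  set T₁ : ℝ := max (T₀ + 1) (Real.exp (C + ‖a‖ + 1)) with hT₁
  refine ⟨C + C2, T₁, by positivity, ?_, ?_⟩
  · have := le_max_left (T₀ + 1) (Real.exp (C + ‖a‖ + 1))
    linarith
  intro w hw1 hw2
  have hwT : T₀ + 1 ≤ w.im := (le_max_left _ _).trans hw2
  have hwE : Real.exp (C + ‖a‖ + 1) ≤ w.im := (le_max_right _ _).trans hw2
  have hpts : ∀ z ∈ closedBall w r, z.re ≤ -(X / 2) ∧ T₀ ≤ z.im := by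
    intro z hz
    rw [mem_closedBall, dist_eq_norm] at hz
    have h1 := (abs_le.1 ((Complex.abs_re_le_norm (z - w)).trans hz)).2
    have h2 := (abs_le.1 ((Complex.abs_im_le_norm (z - w)).trans hz)).1
    rw [Complex.sub_re] at h1
    rw [Complex.sub_im] at h2
    constructor <;> linarith
  have hwmem : w ∈ closedBall w r := mem_closedBall_self hr0.le
  obtain ⟨hfw, hyw⟩ := h w (hpts w hwmem).1 (hpts w hwmem).2
  -- y is analytic
  set y : ℂ → ℂ := logDeriv f with hy
  have hyan : ∀ z ∈ closedBall w r, AnalyticAt ℂ y z := by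
    intro z hz
    have h1 := hf z (by linarith [(hpts z hz).2])
    exact h1.deriv.div h1 (h z (hpts z hz).1 (hpts z hz).2).1
  have hyd : ‖deriv y w‖ ≤ C2 := by
    have e : deriv y w = deriv (fun z => y z + (el w : ℂ)) w := by
      rw [deriv_add_const]
    rw [e]
    refine Complex.norm_deriv_le_of_forall_mem_sphere_norm_le hr0 ?_ ?_
    · apply DifferentiableOn.diffContOnCl
      intro z hz
      have hz' : z ∈ closedBall w r := closure_ball_subset_closedBall hz
      exact ((hyan z hz').differentiableAt.add_const _).differentiableWithinAt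
    · intro z hz
      have hz' := sphere_subset_closedBall hz
      have h1 := (h z (hpts z hz').1 (hpts z hz').2).2
      have h2 := el_close hr2 (by linarith : 2 ≤ w.im) (by
        rw [mem_closedBall, dist_eq_norm] at hz'; exact hz')
      have e2 : y z + (el w : ℂ) = (logDeriv f z + el z) - ((el z - el w : ℝ) : ℂ) := by
        rw [hy]; push_cast; ring
      rw [e2]
      refine (norm_sub_le _ _).trans (add_le_add h1 ?_)
      rw [Complex.norm_real, Real.norm_eq_abs]
      exact h2
  have hel : C + ‖a‖ + 1 ≤ el w := by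
    unfold el
    rw [Real.le_log_iff_exp_le (by
      have := abs_nonneg w.re
      have := le_abs_self w.im
      linarith)]
    have := abs_nonneg w.re
    have := le_abs_self w.im
    linarith
  have hya : 1 ≤ ‖y w - a‖ := by
    have e : (y w - a) = (y w + el w) - (a + el w) := by ring
    have h1 : ‖(el w : ℂ)‖ = el w := by
      rw [Complex.norm_real, Real.norm_of_nonneg]
      have := norm_nonneg a
      linarith
    have h2 : ‖(el w : ℂ)‖ ≤ ‖y w + el w‖ + ‖y w - a‖ + ‖a‖ := by
      have : (el w : ℂ) = (y w + el w) - (y w - a) - a := by ring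
      calc ‖(el w : ℂ)‖ = ‖(y w + el w) - (y w - a) - a‖ := by rw [← this]
        _ ≤ ‖(y w + el w) - (y w - a)‖ + ‖a‖ := norm_sub_le _ _
        _ ≤ _ := by
            gcongr
            exact norm_sub_le _ _
    rw [h1] at h2
    linarith
  have hyane : y w - a ≠ 0 := by
    intro h0
    rw [h0, norm_zero] at hya
    linarith
  -- the function is f (y - a) near w
  have hev : (fun s => deriv f s - a * f s) =ᶠ[𝓝 w] fun s => f s * (y s - a) := by
    have hne : ∀ᶠ z in 𝓝 w, f z ≠ 0 :=
      (hf w (by linarith)).continuousAt.eventually_ne hfw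
    filter_upwards [hne] with z hz
    rw [hy, logDeriv_apply]
    field_simp
  have hfd : HasDerivAt f (deriv f w) w := (hf w (by linarith)).differentiableAt.hasDerivAt
  have hyd' : HasDerivAt y (deriv y w) w := (hyan w hwmem).differentiableAt.hasDerivAt
  have hprod : HasDerivAt (fun s => f s * (y s - a))
      (deriv f w * (y w - a) + f w * deriv y w) w := hfd.mul (hyd'.sub_const a)
  have hval : deriv f w - a * f w = f w * (y w - a) := hev.self_of_nhds
  have e1 : logDeriv (fun s => deriv f s - a * f s) w = y w + deriv y w / (y w - a) := by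
    rw [logDeriv_apply, hev.deriv_eq, hprod.deriv, hval]
    have : deriv f w = f w * y w := by rw [hy, logDeriv_apply]; field_simp
    rw [this]
    field_simp
  refine ⟨?_, ?_⟩
  · simp only
    rw [hval]
    exact mul_ne_zero hfw hyane
  · rw [e1]
    have e2 : y w + deriv y w / (y w - a) + (el w : ℂ) = (y w + el w) + deriv y w / (y w - a) := by
      ring
    rw [e2]
    refine (norm_add_le _ _).trans (add_le_add hyw ?_)
    rw [norm_div, div_le_iff₀ (by linarith)]
    nlinarith

theorem op_HL (l : List ℂ) : HL (op l) := by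
  induction l with
  | nil => exact zeta_HL
  | cons a l ih => exact HL_step (fun s hs => op_an l (ne_one_of_im' hs)) a ih

/-- the size of `op l` to the left of the critical strip -/
theorem op_left (l : List ℂ) (X : ℝ) (hX : 0 < X) : ∃ T₀ : ℝ, 2 ≤ T₀ ∧ ∀ w : ℂ, w.re ≤ -X →
    T₀ ≤ w.im → op l w ≠ 0 ∧ ‖riemannZeta w‖ ≤ ‖op l w‖ ∧
      ‖op l w‖ ≤ (2 * el w) ^ l.length * ‖riemannZeta w‖ := by
  induction l with
  | nil =>
    obtain ⟨C, T₀, hC, hT₀, h⟩ := zeta_HL X hX
    refine ⟨T₀, hT₀, fun w h1 h2 => ⟨(h w h1 h2).1, le_rfl, ?_⟩⟩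
    simp [op]
  | cons a l ih =>
    obtain ⟨T₀, hT₀, h⟩ := ih
    obtain ⟨C, T₁, hC, hT₁, h'⟩ := op_HL l X hX
    obtain ⟨C', T₂, hC', hT₂, h''⟩ := op_HL (a :: l) X hX
    refine ⟨max (max T₀ T₁) (max T₂ (Real.exp (C + ‖a‖ + 1))), ?_, ?_⟩
    · exact hT₀.trans ((le_max_left _ _).trans (le_max_left _ _))
    intro w hw1 hw2
    have hw3 : T₀ ≤ w.im := ((le_max_left _ _).trans (le_max_left _ _)).trans hw2
    have hw4 : T₁ ≤ w.im := ((le_max_right _ _).trans (le_max_left _ _)).trans hw2
    have hw5 : T₂ ≤ w.im := ((le_max_left _ _).trans (le_max_right _ _)).trans hw2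
    have hw6 : Real.exp (C + ‖a‖ + 1) ≤ w.im := ((le_max_right _ _).trans (le_max_right _ _)).trans hw2
    obtain ⟨g1, g2, g3⟩ := h w hw1 hw3
    obtain ⟨k1, k2⟩ := h' w hw1 hw4
    have hel : C + ‖a‖ + 1 ≤ el w := by
      unfold el
      rw [Real.le_log_iff_exp_le (by
        have := abs_nonneg w.re
        have := le_abs_self w.im
        linarith)]
      have := abs_nonneg w.re
      have := le_abs_self w.im
      linarith
    have hel0 : 0 ≤ el w := by have := norm_nonneg a; linarith
    have h1 : ‖(el w : ℂ)‖ = el w := by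
      rw [Complex.norm_real, Real.norm_of_nonneg hel0]
    have hval : op (a :: l) w = op l w * (logDeriv (op l) w - a) := by
      simp only [op]
      rw [logDeriv_apply]
      field_simp
    have hlow : 1 ≤ ‖logDeriv (op l) w - a‖ := by
      have h2 : ‖(el w : ℂ)‖ ≤ ‖logDeriv (op l) w + el w‖ + ‖logDeriv (op l) w - a‖ + ‖a‖ := by
        have : (el w : ℂ) = (logDeriv (op l) w + el w) - (logDeriv (op l) w - a) - a := by ring
        calc ‖(el w : ℂ)‖ = ‖(logDeriv (op l) w + el w) - (logDeriv (op l) w - a) - a‖ := by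
              rw [← this]
          _ ≤ ‖(logDeriv (op l) w + el w) - (logDeriv (op l) w - a)‖ + ‖a‖ := norm_sub_le _ _
          _ ≤ _ := by
              gcongr
              exact norm_sub_le _ _
      rw [h1] at h2
      linarith
    have hup : ‖logDeriv (op l) w - a‖ ≤ 2 * el w := by
      have : logDeriv (op l) w - a = (logDeriv (op l) w + el w) - el w - a := by ring
      rw [this]
      calc ‖(logDeriv (op l) w + el w) - el w - a‖
          ≤ ‖(logDeriv (op l) w + el w) - el w‖ + ‖a‖ := norm_sub_le _ _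
        _ ≤ ‖logDeriv (op l) w + el w‖ + ‖(el w : ℂ)‖ + ‖a‖ := by
            gcongr
            exact norm_sub_le _ _
        _ ≤ 2 * el w := by rw [h1]; linarith
    refine ⟨(h'' w hw1 hw5).1, ?_, ?_⟩
    · rw [hval, norm_mul]
      have := norm_nonneg (op l w)
      nlinarith
    · rw [hval, norm_mul, List.length_cons, pow_succ]
      have h3 : 0 ≤ (2 * el w) ^ l.length := by positivity
      calc ‖op l w‖ * ‖logDeriv (op l) w - a‖
          ≤ ((2 * el w) ^ l.length * ‖riemannZeta w‖) * (2 * el w) := by gcongr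
        _ = _ := by ring

end Pool.Agent.K7.H52.SP
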