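import Pool.Agent.K7.H52.SP.Left

/-!
Bounds for the zeta function in windows, in terms of `L = log T`.
-/

open Complex Metric Set Filter Topology

namespace Pool.Agent.K7.H52.SP

open H345 H345.Chi H370 H370.Loc

/-- constants are absorbed -/
lemma absorb (C : ℝ) {ε : ℝ} (hε : 0 < ε) : ∃ T₀ : ℝ, 3 ≤ T₀ ∧ ∀ T : ℝ, T₀ ≤ T →
    C ≤ Real.exp (ε * Real.log T) := by
  have h1 : Tendsto (fun T : ℝ => Real.exp (ε * Real.log T)) atTop atTop :=
    Real.tendsto_exp_atTop.comp (Tendsto.const_mul_atTop hε Real.tendsto_log_atTop)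
  obtain ⟨T₀, h⟩ := Filter.eventually_atTop.1 (h1.eventually_ge_atTop C)
  exact ⟨max T₀ 3, le_max_right _ _, fun T hT => h T ((le_max_left _ _).trans hT)⟩

/-- powers of logarithms are absorbed -/
lemma absorb_log (C : ℝ) (k : ℕ) {ε : ℝ} (hε : 0 < ε) : ∃ T₀ : ℝ, 3 ≤ T₀ ∧ ∀ T : ℝ, T₀ ≤ T →
    C * Real.log T ^ k ≤ Real.exp (ε * Real.log T) := by
  have h1 : Tendsto (fun x : ℝ => Real.exp x / x ^ k) atTop atTop :=
    Real.tendsto_exp_div_pow_atTop k
  have h2 : Tendsto (fun T : ℝ => ε * Real.log T) atTop atTop :=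
    Tendsto.const_mul_atTop hε Real.tendsto_log_atTop
  have h3 := (h1.comp h2).eventually_ge_atTop (|C| / ε ^ k)
  obtain ⟨T₀, h⟩ := Filter.eventually_atTop.1 h3
  refine ⟨max T₀ 3, le_max_right _ _, fun T hT => ?_⟩
  have h4 := h T ((le_max_left _ _).trans hT)
  have hT3 : 3 ≤ T := (le_max_right _ _).trans hT
  have hlog : 0 < Real.log T := Real.log_pos (by linarith)
  simp only [Function.comp_apply] at h4
  rw [le_div_iff₀ (by positivity), mul_pow] at h4
  have h5 : |C| / ε ^ k * (ε ^ k * Real.log T ^ k) = |C| * Real.log T ^ k := by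
    field_simp
  rw [h5] at h4
  refine le_trans ?_ h4
  gcongr
  exact le_abs_self C

lemma window {W T t : ℝ} (hT : 3 ≤ T) (hW : 2 * W ≤ T) (ht : |t - T| ≤ W) :
    T / 2 ≤ t ∧ t ≤ 2 * T ∧ 1 ≤ t := by
  have := abs_le.1 ht
  refine ⟨by linarith, by linarith, by linarith⟩

lemma exp_mul_log {a T : ℝ} (hT : 0 < T) : Real.exp (a * Real.log T) = T ^ a := by
  rw [Real.rpow_def_of_pos hT, mul_comm]

lemma rpow_window {x X T t : ℝ} (hT : 3 ≤ T) (h1 : T / 2 ≤ t) (h2 : t ≤ 2 * T) (hx : |x| ≤ X) :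
    t ^ x ≤ (2 : ℝ) ^ X * Real.exp (x * Real.log T) := by
  have hT0 : 0 < T := by linarith
  have ht0 : 0 < t := by linarith
  rw [exp_mul_log hT0]
  have h3 := abs_le.1 hx
  rcases le_total 0 x with h | h
  · calc t ^ x ≤ (2 * T) ^ x := Real.rpow_le_rpow ht0.le h2 h
      _ = 2 ^ x * T ^ x := Real.mul_rpow (by norm_num) hT0.le
      _ ≤ 2 ^ X * T ^ x := by
          gcongr
          · norm_num
          · exact h3.2
  · calc t ^ x ≤ (T / 2) ^ x := Real.rpow_le_rpow_of_nonpos (by positivity) h1 h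
      _ = 2 ^ (-x) * T ^ x := by
          rw [div_eq_mul_inv, mul_comm, Real.mul_rpow (by norm_num) hT0.le,
            Real.inv_rpow (by norm_num), ← Real.rpow_neg (by norm_num)]
      _ ≤ 2 ^ X * T ^ x := by
          gcongr
          · norm_num
          · linarith [h3.1]

lemma growth (X : ℝ) : ∃ B : ℝ, 0 ≤ B ∧ ∀ W : ℝ, ∃ T₀ : ℝ, 3 ≤ T₀ ∧
    ∀ T : ℝ, T₀ ≤ T →
    ∀ s : ℂ, -X ≤ s.re → |s.im - T| ≤ W → ‖riemannZeta s‖ ≤ Real.exp (B * Real.log T) := by
  obtain ⟨C, B, hC, hB, h⟩ := H448R2.GC.zeta_growth X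
  obtain ⟨C', hC', h'⟩ := H448R2.GC.X1.zeta_bdd
  obtain ⟨T₀, hT₀, hab⟩ := absorb (max (C * 3 ^ B) C') one_pos
  refine ⟨B + 1, by linarith, fun W => ⟨max T₀ (2 * W), hT₀.trans (le_max_left _ _), ?_⟩⟩
  intro T hT s hs hsW
  have hT3 : 3 ≤ T := hT₀.trans ((le_max_left _ _).trans hT)
  have hT0 : 0 < T := by linarith
  have hlog : 0 < Real.log T := Real.log_pos (by linarith)
  obtain ⟨w1, w2, w3⟩ := window hT3 ((le_max_right _ _).trans hT) hsW
  have h1 := hab T ((le_max_left _ _).trans hT)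
  rcases le_total s.re 3 with h3 | h3
  · have h4 := h s hs h3 (by
      have := Complex.abs_im_le_norm (s - 1)
      rw [Complex.sub_im, Complex.one_im, sub_zero] at this
      have := le_abs_self s.im
      linarith)
    rw [abs_of_pos (by linarith)] at h4
    have h5 : (1 + s.im) ^ B ≤ 3 ^ B * Real.exp (B * Real.log T) := by
      rw [exp_mul_log hT0, ← Real.mul_rpow (by norm_num) hT0.le]
      exact Real.rpow_le_rpow (by linarith) (by linarith) hB.le
    calc ‖riemannZeta s‖ ≤ C * (3 ^ B * Real.exp (B * Real.log T)) := h4.trans (by gcongr)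
      _ = (C * 3 ^ B) * Real.exp (B * Real.log T) := by ring
      _ ≤ Real.exp (1 * Real.log T) * Real.exp (B * Real.log T) := by
          gcongr
          exact (le_max_left _ _).trans h1
      _ = _ := by rw [← Real.exp_add]; congr 1; ring
  · have h4 := h' s (by linarith)
    calc ‖riemannZeta s‖ ≤ C' := h4
      _ ≤ Real.exp (1 * Real.log T) := (le_max_right _ _).trans h1
      _ ≤ _ := by
          apply Real.exp_le_exp.2
          gcongr
          linarith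

lemma growth_op (l : List ℂ) (X : ℝ) : ∃ B : ℝ, 0 ≤ B ∧ ∀ W : ℝ, ∃ T₀ : ℝ, 3 ≤ T₀ ∧
    ∀ T : ℝ, T₀ ≤ T → ∀ s : ℂ, -X ≤ s.re → |s.im - T| ≤ W →
      ‖op l s‖ ≤ Real.exp (B * Real.log T) := by
  obtain ⟨B, hB, hgr⟩ := growth (X + 1)
  obtain ⟨C, hC, h'⟩ := op_cauchy l 1 one_pos
  obtain ⟨T₁, hT₁, hab⟩ := absorb C one_pos
  refine ⟨B + 1, by linarith, fun W => ?_⟩
  obtain ⟨T₀, hT₀, h⟩ := hgr (W + 1)
  refine ⟨max (max T₀ T₁) (W + 2), hT₀.trans ((le_max_left _ _).trans (le_max_left _ _)), ?_⟩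
  intro T hT s hs hsW
  have hTW : W + 2 ≤ T := (le_max_right _ _).trans hT
  have hsW' := abs_le.1 hsW
  have hz : ∀ z ∈ closedBall s 1, -(X + 1) ≤ z.re ∧ |z.im - T| ≤ W + 1 := by
    intro z hz
    rw [mem_closedBall, dist_eq_norm] at hz
    have h1 := abs_le.1 ((Complex.abs_re_le_norm (z - s)).trans hz)
    have h2 := abs_le.1 ((Complex.abs_im_le_norm (z - s)).trans hz)
    rw [Complex.sub_re] at h1
    rw [Complex.sub_im] at h2
    refine ⟨by linarith [h1.1], abs_le.2 ⟨by linarith [h2.1], by linarith [h2.2]⟩⟩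
  have h1 := h' s (fun z hz' => ne_one_of_im' (by
    have := abs_le.1 (hz z hz').2
    linarith [this.1])) _ (fun z hz' => h T (((le_max_left _ _).trans (le_max_left _ _)).trans hT) z
      (hz z hz').1 (hz z hz').2)
  have h2 := hab T (((le_max_right _ _).trans (le_max_left _ _)).trans hT)
  calc ‖op l s‖ ≤ C * Real.exp (B * Real.log T) := h1
    _ ≤ Real.exp (1 * Real.log T) * Real.exp (B * Real.log T) := by gcongr
    _ = _ := by rw [← Real.exp_add]; congr 1; ring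

/-- functional equation, both directions -/
lemma fe_bounds : ∃ C : ℝ, 1 ≤ C ∧ ∀ s w : ℂ, 1 / 2 ≤ s.re → s.re ≤ 4 → 1 ≤ s.im →
    w.re = 1 - s.re → w.im = s.im →
    ‖riemannZeta w‖ ≤ C * s.im ^ (s.re - 1 / 2) * ‖riemannZeta s‖ ∧
    ‖riemannZeta s‖ ≤ C * s.im ^ (1 / 2 - s.re) * ‖riemannZeta w‖ := by
  obtain ⟨K, hK, hX⟩ := XX_size
  refine ⟨Real.exp K, Real.one_le_exp hK.le, ?_⟩
  intro s w h1 h2 h3 hw1 hw2
  have hs1 : s ≠ 1 := ne_one_of_im' (by linarith)
  have hs0 : 0 < s.im := by linarith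
  have hfe : riemannZeta (1 - s) = XX s * riemannZeta s := by
    refine H345.zeta_fe s ?_ hs1
    intro n hn
    rw [hn] at h3
    simp at h3
    linarith
  have hw : (starRingEnd ℂ) w = 1 - s := by
    apply Complex.ext
    · simp [hw1]
    · simp [hw2]
  have hn : ‖riemannZeta w‖ = ‖XX s‖ * ‖riemannZeta s‖ := by
    rw [← norm_mul, ← hfe, ← hw, riemannZeta_conj, RCLike.norm_conj]
  obtain ⟨h4, h5⟩ := hX s h1 h2 h3
  constructor
  · rw [hn]
    gcongr
  · rw [hn]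
    have h6 : 0 < s.im ^ (s.re - 1 / 2) := Real.rpow_pos_of_pos hs0 _
    have h7 : s.im ^ (1 / 2 - s.re) * s.im ^ (s.re - 1 / 2) = 1 := by
      rw [← Real.rpow_add hs0]
      simp
    have h8 : 0 < s.im ^ (1 / 2 - s.re) := Real.rpow_pos_of_pos hs0 _
    have h9 : 1 ≤ Real.exp K * s.im ^ (1 / 2 - s.re) * ‖XX s‖ := by
      calc (1 : ℝ) = Real.exp K * s.im ^ (1 / 2 - s.re) *
            (Real.exp (-K) * s.im ^ (s.re - 1 / 2)) := by
            rw [show Real.exp K * s.im ^ (1 / 2 - s.re) * (Real.exp (-K) * s.im ^ (s.re - 1 / 2)) =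
              (Real.exp K * Real.exp (-K)) * (s.im ^ (1 / 2 - s.re) * s.im ^ (s.re - 1 / 2)) by ring,
              h7, ← Real.exp_add]
            simp
        _ ≤ _ := by gcongr
    have h10 := norm_nonneg (riemannZeta s)
    calc ‖riemannZeta s‖ ≤ (Real.exp K * s.im ^ (1 / 2 - s.re) * ‖XX s‖) * ‖riemannZeta s‖ := by
          nlinarith
      _ = _ := by ring

lemma fe_window (W : ℝ) {ε : ℝ} (hε : 0 < ε) : ∃ T₀ : ℝ, 3 ≤ T₀ ∧ ∀ T : ℝ, T₀ ≤ T →
    ∀ s w : ℂ, 1 / 2 ≤ s.re → s.re ≤ 4 → |s.im - T| ≤ W →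
    w.re = 1 - s.re → w.im = s.im →
    ‖riemannZeta w‖ ≤ Real.exp ((s.re - 1 / 2 + ε) * Real.log T) * ‖riemannZeta s‖ ∧
    ‖riemannZeta s‖ ≤ Real.exp ((1 / 2 - s.re + ε) * Real.log T) * ‖riemannZeta w‖ := by
  obtain ⟨C, hC, h⟩ := fe_bounds
  obtain ⟨T₀, hT₀, hab⟩ := absorb (C * 2 ^ (4 : ℝ)) hε
  refine ⟨max T₀ (2 * W), hT₀.trans (le_max_left _ _), ?_⟩
  intro T hT s w h1 h2 hsW hw1 hw2
  have hT3 : 3 ≤ T := hT₀.trans ((le_max_left _ _).trans hT)
  obtain ⟨w1, w2, w3⟩ := window hT3 ((le_max_right _ _).trans hT) hsW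
  obtain ⟨g1, g2⟩ := h s w h1 h2 w3 hw1 hw2
  have hab' := hab T ((le_max_left _ _).trans hT)
  have hr1 := rpow_window (x := s.re - 1 / 2) (X := 4) hT3 w1 w2 (by
    rw [abs_le]; constructor <;> linarith)
  have hr2 := rpow_window (x := 1 / 2 - s.re) (X := 4) hT3 w1 w2 (by
    rw [abs_le]; constructor <;> linarith)
  constructor
  · refine g1.trans ?_
    gcongr
    calc C * s.im ^ (s.re - 1 / 2) ≤ C * (2 ^ (4 : ℝ) * Real.exp ((s.re - 1 / 2) * Real.log T)) := by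
          gcongr
      _ = (C * 2 ^ (4 : ℝ)) * Real.exp ((s.re - 1 / 2) * Real.log T) := by ring
      _ ≤ Real.exp (ε * Real.log T) * Real.exp ((s.re - 1 / 2) * Real.log T) := by gcongr
      _ = _ := by rw [← Real.exp_add]; congr 1; ring
  · refine g2.trans ?_
    gcongr
    calc C * s.im ^ (1 / 2 - s.re) ≤ C * (2 ^ (4 : ℝ) * Real.exp ((1 / 2 - s.re) * Real.log T)) := by
          gcongr
      _ = (C * 2 ^ (4 : ℝ)) * Real.exp ((1 / 2 - s.re) * Real.log T) := by ring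
      _ ≤ Real.exp (ε * Real.log T) * Real.exp ((1 / 2 - s.re) * Real.log T) := by gcongr
      _ = _ := by rw [← Real.exp_add]; congr 1; ring

/-- covering a window by smaller ones -/
lemma cover {f : ℂ → ℂ} {T W h b : ℝ} (hh : 0 < h) (hW : 0 ≤ W) (S : Finset ℂ)
    (hS : ∀ s ∈ S, |s.im - T| ≤ W)
    (P : ∀ t : ℝ, |t - T| ≤ W → ∀ S' ⊆ S, (∀ s ∈ S', |s.im - t| ≤ h) →
      ∑ s ∈ S', (mult f s : ℝ) ≤ b) :
    ∑ s ∈ S, (mult f s : ℝ) ≤ (⌊2 * W / h⌋₊ + 1) * b := by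
  classical
  set j : ℂ → ℕ := fun s => ⌊(s.im - (T - W)) / h⌋₊ with hj
  have hmap : ∀ s ∈ S, j s ∈ Finset.range (⌊2 * W / h⌋₊ + 1) := by
    intro s hs
    have h1 := abs_le.1 (hS s hs)
    rw [Finset.mem_range, Nat.lt_succ_iff]
    apply Nat.floor_le_floor
    gcongr
    linarith
  rw [← Finset.sum_fiberwise_of_maps_to hmap]
  have hle : ∀ i ∈ Finset.range (⌊2 * W / h⌋₊ + 1),
      ∑ s ∈ S with j s = i, (mult f s : ℝ) ≤ b := by
    intro i hi
    by_cases hemp : (S.filter fun s => j s = i).Nonempty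
    · obtain ⟨s₀, hs₀⟩ := hemp
      rw [Finset.mem_filter] at hs₀
      obtain ⟨hs₀1, hs₀2⟩ := hs₀
      have hW1 := abs_le.1 (hS s₀ hs₀1)
      have key : ∀ s ∈ S, j s = i → T - W + i * h ≤ s.im ∧ s.im ≤ T - W + i * h + h := by
        intro s hs hsi
        have h1 := abs_le.1 (hS s hs)
        have h2 : 0 ≤ (s.im - (T - W)) / h := div_nonneg (by linarith) hh.le
        have h3 := Nat.floor_le h2
        have h4 := Nat.lt_floor_add_one ((s.im - (T - W)) / h)
        have h5 : (⌊(s.im - (T - W)) / h⌋₊ : ℝ) = i := by exact_mod_cast hsi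
        rw [h5] at h3 h4
        rw [le_div_iff₀ hh] at h3
        rw [div_lt_iff₀ hh] at h4
        constructor <;> linarith
      have hk₀ := key s₀ hs₀1 hs₀2
      refine P (T - W + i * h) ?_ _ (Finset.filter_subset _ _) ?_
      · have hih : 0 ≤ (i : ℝ) * h := by positivity
        rw [abs_le]
        constructor
        · linarith
        · linarith
      · intro s hs
        rw [Finset.mem_filter] at hs
        have := key s hs.1 hs.2
        rw [abs_le]
        constructor <;> linarith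
    · rw [Finset.not_nonempty_iff_eq_empty] at hemp
      rw [hemp, Finset.sum_empty]
      have := P T (by rw [sub_self, abs_zero]; exact hW) ∅ (Finset.empty_subset _) (by simp)
      simpa using this
  calc ∑ i ∈ Finset.range (⌊2 * W / h⌋₊ + 1), ∑ s ∈ S with j s = i, (mult f s : ℝ)
      ≤ ∑ i ∈ Finset.range (⌊2 * W / h⌋₊ + 1), b := Finset.sum_le_sum hle
    _ = _ := by rw [Finset.sum_const, Finset.card_range, nsmul_eq_mul]; push_cast; ring

end Pool.Agent.K7.H52.SP
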